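import Mathlib

/-!
# Good pairs: groups acting on a 4-tournament superposed with a triangle-free graph
-/

set_option autoImplicit false

namespace Pool.Agent.Lib.MP_0dd7b8_al

open Equiv

/-- A 4-tournament superposed with a triangle-free graph. -/
structure Str (Ω : Type) where
  E : Ω → Ω → Prop
  R : (Fin 4 → Ω) → Prop
  E_symm : ∀ x y, E x y → E y x
  E_irrefl : ∀ x, ¬ E x x
  E_tri : ∀ x y z, E x y → E y z → E x z → False
  R_inj : ∀ x, R x → Function.Injective x
  R_alt : ∀ (x : Fin 4 → Ω) (σ : Perm (Fin 4)), Function.Injective x →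
    (R (x ∘ σ) ↔ (R x ↔ Perm.sign σ = 1))

/-- The group `G` acts by automorphisms, in a way that allows extensions. -/
structure Good (G Ω : Type) [Group G] [MulAction G Ω] (S : Str Ω) : Prop where
  mapE : ∀ (g : G) (x y : Ω), S.E (g • x) (g • y) ↔ S.E x y
  mapR : ∀ (g : G) (x : Fin 4 → Ω), S.R (g • x) ↔ S.R x
  sharp : ∀ (g : G) (x : Fin 4 → Ω), Function.Injective x → g • x = x → g = 1
  invol : ∀ (g : G) (x : Ω), g ≠ 1 → g ^ 2 = 1 → g • x ≠ x
  three : ∀ (g : G) (x y : Ω), g ≠ 1 → g ^ 3 = 1 → g • x = x → g • y = y → x = y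
  noFour : ∀ g : G, g ^ 4 = 1 → g ^ 2 = 1

section perms

set_option maxRecDepth 20000 in
theorem odd_perm_cases : ∀ σ : Perm (Fin 4), Perm.sign σ ≠ 1 →
    (σ ^ 2 = 1 ∧ ∃ i, σ i = i) ∨ (σ ^ 4 = 1 ∧ σ ^ 2 ≠ 1) := by decide

theorem even_perm_cases : ∀ σ : Perm (Fin 4), Perm.sign σ = 1 → σ ≠ 1 →
    σ ^ 2 = 1 ∨ (σ ^ 3 = 1 ∧ ∃ i, σ i = i) := by decide

theorem even_invol : ∀ σ : Perm (Fin 4), Perm.sign σ = 1 → σ ≠ 1 → σ ^ 2 = 1 →
    ∀ i, σ i ≠ i := by decide

theorem even_three : ∀ σ : Perm (Fin 4), σ ≠ 1 → σ ^ 3 = 1 →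
    ∀ i j, σ i = i → σ j = j → i = j := by decide

set_option maxRecDepth 20000 in
theorem even_four : ∀ σ : Perm (Fin 4), Perm.sign σ = 1 → σ ^ 4 = 1 → σ ^ 2 = 1 := by decide

end perms

section action

variable {Γ Z : Type} [Group Γ] [MulAction Γ Z]

theorem smul_comp (g : Γ) (x : Fin 4 → Z) (σ : Fin 4 → Fin 4) : g • (x ∘ σ) = (g • x) ∘ σ := rfl

theorem pow_smul_tuple {g : Γ} {x : Fin 4 → Z} {σ : Perm (Fin 4)} (h : g • x = x ∘ σ) (n : ℕ) :
    g ^ n • x = x ∘ (σ ^ n : Perm (Fin 4)) := by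
  induction n with
  | zero => simp
  | succ n ih =>
    rw [pow_succ, mul_smul, h, smul_comp, ih, pow_succ']
    funext i
    simp [Function.comp, Perm.mul_apply]
    have : (σ ^ n) (σ i) = σ ((σ ^ n) i) := by
      rw [← Perm.mul_apply, ← Perm.mul_apply, ← pow_succ, ← pow_succ']
    rw [this]

/-- Stabilisers of 4-element sets act evenly. -/
theorem even_of_stab
    (sharp : ∀ (g : Γ) (x : Fin 4 → Z), Function.Injective x → g • x = x → g = 1)
    (invol : ∀ (g : Γ) (x : Z), g ≠ 1 → g ^ 2 = 1 → g • x ≠ x)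
    (noFour : ∀ g : Γ, g ^ 4 = 1 → g ^ 2 = 1)
    {g : Γ} {x : Fin 4 → Z} {σ : Perm (Fin 4)} (hx : Function.Injective x)
    (h : g • x = x ∘ σ) : Perm.sign σ = 1 := by
  by_contra hs
  have hp := pow_smul_tuple h
  have hσ1 : ∀ n, g ^ n = 1 → σ ^ n = 1 := by
    intro n hn
    have h1 := hp n
    rw [hn, one_smul] at h1
    ext i
    have := congrFun h1 i
    rw [Perm.one_apply]
    exact congrArg _ (hx this.symm)
  have hg1 : ∀ n, σ ^ n = 1 → g ^ n = 1 := by
    intro n hn
    apply sharp _ x hx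
    rw [hp n, hn]
    rfl
  rcases odd_perm_cases σ hs with ⟨h2, i, hi⟩ | ⟨h4, h2⟩
  · have hg2 := hg1 2 h2
    have hgne : g ≠ 1 := by
      rintro rfl
      have := hσ1 1 (one_pow 1)
      rw [pow_one] at this
      rw [this] at hs
      exact hs (map_one _)
    apply invol g (x i) hgne hg2
    have := congrFun h i
    rw [Pi.smul_apply, Function.comp_apply, hi] at this
    exact this
  · exact h2 (hσ1 2 (noFour g (hg1 4 h4)))

end action

section build

variable {Γ Z : Type} [Group Γ] [MulAction Γ Z]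

/-- The relation of being in the same orbit of tuples up to reordering. -/
def tupleSetoid (Γ Z : Type) [Group Γ] [MulAction Γ Z] : Setoid (Fin 4 → Z) where
  r x z := ∃ (g : Γ) (σ : Perm (Fin 4)), z = (g • x) ∘ σ
  iseqv := {
    refl := fun x => ⟨1, 1, by simp⟩
    symm := by
      rintro x z ⟨g, σ, rfl⟩
      refine ⟨g⁻¹, σ⁻¹, ?_⟩
      funext i
      simp
    trans := by
      rintro x y z ⟨g, σ, rfl⟩ ⟨g', σ', rfl⟩
      refine ⟨g' * g, σ * σ', ?_⟩
      funext i
      simp [mul_smul] }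

/-- An alternating equivariant relation extending a coherent one. -/
theorem exists_orientation (P0 : Set (Fin 4 → Z)) (R0 : (Fin 4 → Z) → Prop)
    (hP0 : ∀ x ∈ P0, Function.Injective x)
    (coh : ∀ x ∈ P0, ∀ y ∈ P0, ∀ (g : Γ) (σ : Perm (Fin 4)), y = (g • x) ∘ σ →
      (R0 y ↔ (R0 x ↔ Perm.sign σ = 1)))
    (even : ∀ (x : Fin 4 → Z) (g : Γ) (σ : Perm (Fin 4)), Function.Injective x →
      g • x = x ∘ σ → Perm.sign σ = 1) :
    ∃ R : (Fin 4 → Z) → Prop, (∀ x, R x → Function.Injective x) ∧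
      (∀ (x : Fin 4 → Z) (σ : Perm (Fin 4)), Function.Injective x →
        (R (x ∘ σ) ↔ (R x ↔ Perm.sign σ = 1))) ∧
      (∀ (g : Γ) (x : Fin 4 → Z), R (g • x) ↔ R x) ∧
      (∀ x ∈ P0, R x ↔ R0 x) := by
  classical
  let s := tupleSetoid Γ Z
  -- representatives, in `P0` if possible
  let rep : (Fin 4 → Z) → (Fin 4 → Z) := fun z =>
    if h : ∃ x, x ∈ P0 ∧ s.r x z then h.choose else (Quotient.mk s z).out
  have rep_rel : ∀ z, s.r (rep z) z := by
    intro z
    by_cases h : ∃ x, x ∈ P0 ∧ s.r x z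
    · simp only [rep, dif_pos h]
      exact h.choose_spec.2
    · simp only [rep, dif_neg h]
      exact Quotient.exact (Quotient.out_eq (Quotient.mk s z))
  have rep_eq : ∀ z z', s.r z z' → rep z = rep z' := by
    intro z z' hzz
    have hiff : ∀ x, (x ∈ P0 ∧ s.r x z) ↔ (x ∈ P0 ∧ s.r x z') := by
      intro x
      exact ⟨fun h => ⟨h.1, s.iseqv.trans h.2 hzz⟩, fun h => ⟨h.1, s.iseqv.trans h.2 (s.iseqv.symm hzz)⟩⟩
    have hfun : (fun x => x ∈ P0 ∧ s.r x z) = (fun x => x ∈ P0 ∧ s.r x z') :=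
      funext fun x => propext (hiff x)
    by_cases h : ∃ x, x ∈ P0 ∧ s.r x z
    · have h' : ∃ x, x ∈ P0 ∧ s.r x z' := by
        obtain ⟨x, hx⟩ := h
        exact ⟨x, (hiff x).mp hx⟩
      simp only [rep, dif_pos h, dif_pos h']
      congr 1
    · have h' : ¬ ∃ x, x ∈ P0 ∧ s.r x z' := by
        rintro ⟨x, hx⟩
        exact h ⟨x, (hiff x).mpr hx⟩
      simp only [rep, dif_neg h, dif_neg h']
      congr 1
      exact Quotient.sound hzz
  have rep_P0 : ∀ z, (∃ x, x ∈ P0 ∧ s.r x z) → rep z ∈ P0 := by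
    intro z h
    simp only [rep, dif_pos h]
    exact h.choose_spec.1
  -- the value at a representative
  let val : (Fin 4 → Z) → Prop := fun x => if x ∈ P0 then R0 x else True
  let R : (Fin 4 → Z) → Prop := fun z => Function.Injective z ∧
    ∃ (g : Γ) (σ : Perm (Fin 4)), z = (g • rep z) ∘ σ ∧ (val (rep z) ↔ Perm.sign σ = 1)
  have rep_inj : ∀ z, Function.Injective z → Function.Injective (rep z) := by
    intro z hz
    obtain ⟨g, σ, h⟩ := rep_rel z
    generalize rep z = r at h
    have : r = (g⁻¹ • z) ∘ (σ⁻¹ : Perm (Fin 4)) := by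
      rw [h]
      funext i
      simp
    rw [this]
    exact ((MulAction.injective g⁻¹).comp hz).comp (Equiv.injective _)
  -- the sign is well defined
  have sgn : ∀ z, Function.Injective z → ∀ (g g' : Γ) (σ σ' : Perm (Fin 4)),
      z = (g • rep z) ∘ σ → z = (g' • rep z) ∘ σ' → Perm.sign σ = Perm.sign σ' := by
    intro z hz g g' σ σ' h h'
    have h1 : (g'⁻¹ * g) • rep z = rep z ∘ (σ' * σ⁻¹ : Perm (Fin 4)) := by
      have h2 : (g • rep z) ∘ σ = (g' • rep z) ∘ σ' := h.symm.trans h'
      funext i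
      have h3 := congrFun h2 (σ⁻¹ i)
      have h4 : σ (σ⁻¹ i) = i := by simp
      simp only [Function.comp_apply, Pi.smul_apply, h4] at h3
      rw [Pi.smul_apply, mul_smul, h3, inv_smul_smul]
      rfl
    have h2 := even (rep z) _ _ (rep_inj z hz) h1
    rw [Perm.sign_mul, Perm.sign_inv] at h2
    have h3 : Perm.sign σ' = (Perm.sign σ)⁻¹ := eq_inv_of_mul_eq_one_left h2
    rw [h3, Int.units_inv_eq_self]
  have Rval : ∀ z, Function.Injective z → ∀ (g : Γ) (σ : Perm (Fin 4)),
      z = (g • rep z) ∘ σ → (R z ↔ (val (rep z) ↔ Perm.sign σ = 1)) := by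
    intro z hz g σ h
    constructor
    · rintro ⟨_, g', σ', h', hv⟩
      rw [sgn z hz g g' σ σ' h h']
      exact hv
    · intro hv
      exact ⟨hz, g, σ, h, hv⟩
  have unit_cases : ∀ u : ℤˣ, u = 1 ∨ u = -1 := Int.units_eq_one_or
  refine ⟨R, fun x hx => hx.1, ?_, ?_, ?_⟩
  · intro x σ hx
    obtain ⟨g, τ, h⟩ := rep_rel x
    have hrel : s.r x (x ∘ σ) := ⟨1, σ, by simp⟩
    have hrep := rep_eq _ _ hrel
    have hxσ : Function.Injective (x ∘ σ) := hx.comp (Equiv.injective _)
    have h' : x ∘ σ = (g • rep (x ∘ σ)) ∘ (τ * σ : Perm (Fin 4)) := by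
      rw [← hrep]
      conv_lhs => rw [h]
      rfl
    rw [Rval x hx g τ h, Rval (x ∘ σ) hxσ g (τ * σ) h', ← hrep, Perm.sign_mul]
    rcases unit_cases (Perm.sign τ) with h1 | h1 <;> rcases unit_cases (Perm.sign σ) with h2 | h2 <;>
      rw [h1, h2] <;> by_cases hv : val (rep x) <;> simp [hv]
  · intro g x
    by_cases hx : Function.Injective x
    · obtain ⟨g', τ, h⟩ := rep_rel x
      have hrel : s.r x (g • x) := ⟨g, 1, by simp⟩
      have hrep := rep_eq _ _ hrel
      have hgx : Function.Injective (g • x) := (MulAction.injective g).comp hx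
      have h' : g • x = ((g * g') • rep (g • x)) ∘ τ := by
        rw [← hrep, mul_smul]
        conv_lhs => rw [h]
        rfl
      rw [Rval x hx g' τ h, Rval (g • x) hgx (g * g') τ h', ← hrep]
    · constructor
      · intro h
        exact absurd (fun a b hab => h.1 (congrArg (g • ·) hab)) hx
      · intro h
        exact absurd h.1 hx
  · intro x hx
    obtain ⟨g, τ, h⟩ := rep_rel x
    have hP : rep x ∈ P0 := rep_P0 x ⟨x, hx, s.iseqv.refl x⟩
    rw [Rval x (hP0 x hx) g τ h]
    simp only [val, if_pos hP]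
    exact (coh (rep x) hP x hx g τ h).symm

end build

end Pool.Agent.Lib.MP_0dd7b8_al

/-!
# The tree of spaces, as a set of stacks
-/

set_option autoImplicit false
set_option linter.unusedSectionVars false

namespace Pool.Agent.Lib.MP_0dd7b8_al

open Equiv

/-- Gluing data for an HNN extension acting on a tree of copies of `Ω`. -/
structure Data (G Ω : Type) [Group G] [MulAction G Ω] where
  Cg : Bool → Subgroup G
  φ : Bool → G → G
  Dm : Bool → Set Ω
  th : Bool → Ω → Ω
  rep : Bool → G → G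
  φ_mem : ∀ ε c, c ∈ Cg ε → φ ε c ∈ Cg (!ε)
  φ_mul : ∀ ε c d, c ∈ Cg ε → d ∈ Cg ε → φ ε (c * d) = φ ε c * φ ε d
  φ_inv : ∀ ε c, c ∈ Cg ε → φ (!ε) (φ ε c) = c
  th_mem : ∀ ε x, x ∈ Dm ε → th ε x ∈ Dm (!ε)
  th_inv : ∀ ε x, x ∈ Dm ε → th (!ε) (th ε x) = x
  Dm_inv : ∀ ε c x, c ∈ Cg ε → x ∈ Dm ε → c • x ∈ Dm ε
  th_smul : ∀ ε c x, c ∈ Cg ε → x ∈ Dm ε → th ε (c • x) = φ ε c • th ε x
  rep_mem : ∀ ε g, (rep ε g)⁻¹ * g ∈ Cg (!ε)
  rep_mul : ∀ ε g c, c ∈ Cg (!ε) → rep ε (g * c) = rep ε g
  rep_one : ∀ ε, rep ε 1 = 1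

/-- Points of the tree of copies of `Ω`. -/
inductive Stk (G Ω : Type) where
  | base : Ω → Stk G Ω
  | push : Bool → G → Stk G Ω → Stk G Ω

namespace Data

variable {G Ω : Type} [Group G] [MulAction G Ω] (D : Data G Ω)

theorem φ_one (ε : Bool) : D.φ ε 1 = 1 := by
  have h := D.φ_mul ε 1 1 (one_mem _) (one_mem _)
  rw [mul_one] at h
  exact (left_eq_mul.mp h)

theorem φ_ne_one {ε : Bool} {c : G} (hc : c ∈ D.Cg ε) (h1 : c ≠ 1) : D.φ ε c ≠ 1 := by
  intro h
  apply h1
  rw [← D.φ_inv ε c hc, h, D.φ_one]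

theorem rep_eq_one_iff {ε : Bool} {g : G} : D.rep ε g = 1 ↔ g ∈ D.Cg (!ε) := by
  constructor
  · intro h
    have := D.rep_mem ε g
    rw [h] at this
    simpa using this
  · intro h
    rw [← D.rep_one ε, ← D.rep_mul ε 1 g h, one_mul]

theorem rep_mul_rep (ε : Bool) (g h : G) : D.rep ε (g * D.rep ε h) = D.rep ε (g * h) := by
  have h1 := D.rep_mul ε (g * h) ((D.rep ε h)⁻¹ * h)⁻¹ (inv_mem (D.rep_mem ε h))
  rw [← h1]
  congr 1
  group

theorem rep_rep (ε : Bool) (g : G) : D.rep ε (D.rep ε g) = D.rep ε g := by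
  have := D.rep_mul_rep ε 1 g
  simpa using this

/-- The action of `G` on stacks. -/
def act : G → Stk G Ω → Stk G Ω
  | g, .base x => .base (g • x)
  | g, .push ε h q =>
    .push ε (D.rep ε (g * h)) (act (D.φ (!ε) ((D.rep ε (g * h))⁻¹ * (g * h))) q)

@[simp] theorem act_base (g : G) (x : Ω) : D.act g (.base x) = .base (g • x) := rfl

theorem act_push (g : G) (ε : Bool) (h : G) (q : Stk G Ω) : D.act g (.push ε h q) =
    .push ε (D.rep ε (g * h)) (D.act (D.φ (!ε) ((D.rep ε (g * h))⁻¹ * (g * h))) q) := rfl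

/-- The stable letter acts inside the level. -/
def InDom (ε : Bool) : Stk G Ω → Prop
  | .base x => x ∈ D.Dm ε
  | .push ε' h _ => ε' = !ε ∧ h = 1

@[simp] theorem inDom_base {ε : Bool} {x : Ω} : D.InDom ε (.base x) ↔ x ∈ D.Dm ε := Iff.rfl
@[simp] theorem inDom_push {ε ε' : Bool} {h : G} {q : Stk G Ω} :
    D.InDom ε (.push ε' h q) ↔ ε' = !ε ∧ h = 1 := Iff.rfl

/-- Valid stacks. -/
def Valid : Stk G Ω → Prop
  | .base _ => True
  | .push ε h q => D.rep ε h = h ∧ ¬ D.InDom ε q ∧ Valid q

@[simp] theorem valid_base {x : Ω} : D.Valid (.base x) := trivial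
theorem valid_push {ε : Bool} {h : G} {q : Stk G Ω} :
    D.Valid (.push ε h q) ↔ D.rep ε h = h ∧ ¬ D.InDom ε q ∧ D.Valid q := Iff.rfl

theorem act_one (q : Stk G Ω) (hq : D.Valid q) : D.act 1 q = q := by
  induction q with
  | base x => simp
  | push ε h q ih =>
    obtain ⟨h1, -, h3⟩ := hq
    rw [act_push, one_mul, h1, inv_mul_cancel, D.φ_one, ih h3]

theorem act_mul (g g' : G) (q : Stk G Ω) : D.act (g * g') q = D.act g (D.act g' q) := by
  induction q generalizing g g' with
  | base x => simp [mul_smul]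
  | push ε h q ih =>
    rw [act_push, act_push, act_push, ← ih]
    have e1 : D.rep ε (g * D.rep ε (g' * h)) = D.rep ε (g * g' * h) := by
      rw [D.rep_mul_rep, mul_assoc]
    rw [e1]
    congr 2
    rw [← D.φ_mul]
    · congr 1
      group
    · have := D.rep_mem ε (g * D.rep ε (g' * h))
      rw [e1] at this
      exact this
    · exact D.rep_mem ε (g' * h)

theorem inDom_act {ε : Bool} {c : G} (hc : c ∈ D.Cg ε) {q : Stk G Ω} (hq : D.Valid q) :
    D.InDom ε (D.act c q) ↔ D.InDom ε q := by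
  cases q with
  | base x =>
    simp only [act_base, inDom_base]
    constructor
    · intro h
      have := D.Dm_inv ε c⁻¹ _ (inv_mem hc) h
      simpa using this
    · exact D.Dm_inv ε c x hc
  | push ε' h q =>
    rw [act_push, inDom_push, inDom_push]
    apply and_congr_right
    rintro rfl
    rw [D.rep_eq_one_iff, Bool.not_not]
    have h1 : h = 1 ↔ h ∈ D.Cg ε := by
      have h2 := D.rep_eq_one_iff (ε := !ε) (g := h)
      rw [hq.1, Bool.not_not] at h2
      exact h2
    rw [h1]
    exact Subgroup.mul_mem_cancel_left _ hc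

theorem valid_act (g : G) {q : Stk G Ω} (hq : D.Valid q) : D.Valid (D.act g q) := by
  induction q generalizing g with
  | base x => trivial
  | push ε h q ih =>
    obtain ⟨h1, h2, h3⟩ := hq
    rw [act_push, valid_push]
    refine ⟨D.rep_rep ε _, ?_, ih _ h3⟩
    have h4 : D.φ (!ε) ((D.rep ε (g * h))⁻¹ * (g * h)) ∈ D.Cg ε := by
      have := D.φ_mem (!ε) _ (D.rep_mem ε (g * h))
      rwa [Bool.not_not] at this
    rwa [D.inDom_act h4 h3]

/-- The part of a stack below its top. -/
def down (ε : Bool) : Stk G Ω → Stk G Ω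
  | .base x => .base (D.th ε x)
  | .push _ _ q => q

open Classical in
/-- The stable letter. -/
noncomputable def tt (ε : Bool) (q : Stk G Ω) : Stk G Ω :=
  if D.InDom ε q then D.down ε q else .push ε 1 q

theorem tt_of_inDom {ε : Bool} {q : Stk G Ω} (h : D.InDom ε q) : D.tt ε q = D.down ε q := if_pos h

theorem tt_of_not {ε : Bool} {q : Stk G Ω} (h : ¬ D.InDom ε q) : D.tt ε q = .push ε 1 q := if_neg h

theorem valid_tt (ε : Bool) {q : Stk G Ω} (hq : D.Valid q) : D.Valid (D.tt ε q) := by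
  by_cases h : D.InDom ε q
  · rw [D.tt_of_inDom h]
    cases q with
    | base x => trivial
    | push ε' h q => exact hq.2.2
  · rw [D.tt_of_not h]
    exact ⟨D.rep_one ε, h, hq⟩

theorem tt_tt (ε : Bool) {q : Stk G Ω} (hq : D.Valid q) : D.tt (!ε) (D.tt ε q) = q := by
  by_cases h : D.InDom ε q
  · rw [D.tt_of_inDom h]
    cases q with
    | base x =>
      have h1 : D.InDom (!ε) (D.down ε (.base x)) := D.th_mem ε x h
      rw [D.tt_of_inDom h1]
      exact congrArg Stk.base (D.th_inv ε x h)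
    | push ε' h' q =>
      obtain ⟨rfl, rfl⟩ := h
      exact D.tt_of_not hq.2.1
  · rw [D.tt_of_not h]
    have h1 : D.InDom (!ε) (.push ε 1 q) := ⟨by simp, rfl⟩
    rw [D.tt_of_inDom h1]
    rfl

theorem tt_act {ε : Bool} {c : G} (hc : c ∈ D.Cg ε) {q : Stk G Ω} (hq : D.Valid q) :
    D.tt ε (D.act c q) = D.act (D.φ ε c) (D.tt ε q) := by
  have hc' : D.φ ε c ∈ D.Cg (!ε) := D.φ_mem ε c hc
  by_cases h : D.InDom ε q
  · rw [D.tt_of_inDom h, D.tt_of_inDom ((D.inDom_act hc hq).mpr h)]
    cases q with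
    | base x => exact congrArg Stk.base (D.th_smul ε c x hc h)
    | push ε' h' q =>
      obtain ⟨rfl, rfl⟩ := h
      rw [act_push]
      have h1 : D.rep (!ε) (c * 1) = 1 := by
        rw [D.rep_eq_one_iff, Bool.not_not, mul_one]
        exact hc
      rw [h1]
      simp [down]
  · rw [D.tt_of_not h, D.tt_of_not (fun h' => h ((D.inDom_act hc hq).mp h')), act_push]
    have h1 : D.rep ε (D.φ ε c * 1) = 1 := by
      rw [D.rep_eq_one_iff, mul_one]
      exact hc'
    rw [h1]
    simp [D.φ_inv ε c hc]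

/-- The number of levels. -/
def sz : Stk G Ω → ℕ
  | .base _ => 0
  | .push _ _ q => sz q + 1

@[simp] theorem sz_base (x : Ω) : sz (G := G) (.base x) = 0 := rfl
@[simp] theorem sz_push (ε : Bool) (h : G) (q : Stk G Ω) : sz (.push ε h q) = sz q + 1 := rfl

theorem sz_act (g : G) (q : Stk G Ω) : sz (D.act g q) = sz q := by
  induction q generalizing g with
  | base x => rfl
  | push ε h q ih => rw [act_push, sz_push, sz_push, ih]

theorem sz_down {ε : Bool} (q : Stk G Ω) : sz (D.down ε q) = sz q - 1 := by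
  cases q <;> simp [down]

end Data

end Pool.Agent.Lib.MP_0dd7b8_al

/-!
# Words in the stable letter
-/

set_option autoImplicit false
set_option linter.unusedSectionVars false

namespace Pool.Agent.Lib.MP_0dd7b8_al

open Equiv

namespace Data

variable {G Ω : Type} [Group G] [MulAction G Ω] (D : Data G Ω)

/-- Apply a word. -/
noncomputable def run : List (Bool × G) → Stk G Ω → Stk G Ω
  | [], q => q
  | (ε, g) :: L, q => D.tt ε (D.act g (run L q))

@[simp] theorem run_nil (q : Stk G Ω) : D.run [] q = q := rfl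
theorem run_cons (ε : Bool) (g : G) (L : List (Bool × G)) (q : Stk G Ω) :
    D.run ((ε, g) :: L) q = D.tt ε (D.act g (D.run L q)) := rfl

theorem run_append (L M : List (Bool × G)) (q : Stk G Ω) :
    D.run (L ++ M) q = D.run L (D.run M q) := by
  induction L with
  | nil => rfl
  | cons a L ih =>
    obtain ⟨ε, g⟩ := a
    rw [List.cons_append, run_cons, run_cons, ih]

theorem valid_run (L : List (Bool × G)) {q : Stk G Ω} (hq : D.Valid q) : D.Valid (D.run L q) := by
  induction L with
  | nil => exact hq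
  | cons a L ih => exact D.valid_tt _ (D.valid_act _ ih)

/-- No pinch between consecutive letters. -/
def NP (a b : Bool × G) : Prop := ¬ (a.1 = !b.1 ∧ a.2 ∈ D.Cg a.1)

/-- Reduced words. -/
def Red (L : List (Bool × G)) : Prop := List.IsChain D.NP L

/-- No new level is created. -/
def NoPush : List (Bool × G) → Stk G Ω → Prop
  | [], _ => True
  | (ε, g) :: L, q => NoPush L q ∧ D.InDom ε (D.act g (D.run L q))

/-- The last letter created a new level. -/
def Up (L : List (Bool × G)) (q : Stk G Ω) : Prop :=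
  ∃ (ε : Bool) (g : G) (L' : List (Bool × G)) (r : Stk G Ω),
    L = (ε, g) :: L' ∧ D.run L q = .push ε 1 r

theorem red_tail {a : Bool × G} {L : List (Bool × G)} (h : D.Red (a :: L)) : D.Red L :=
  List.IsChain.tail h

theorem up_step {a : Bool × G} {L : List (Bool × G)} {q : Stk G Ω} (hr : D.Red (a :: L))
    (h : D.Up L q) : D.Up (a :: L) q ∧ sz (D.run (a :: L) q) = sz (D.run L q) + 1 := by
  obtain ⟨ε', g', L', r, rfl, h2⟩ := h
  obtain ⟨ε, g⟩ := a
  have hnp : D.NP (ε, g) (ε', g') := (List.isChain_cons_cons.mp hr).1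
  have hnd : ¬ D.InDom ε (D.act g (D.run ((ε', g') :: L') q)) := by
    rw [h2, act_push, inDom_push]
    rintro ⟨h3, h4⟩
    apply hnp
    rw [D.rep_eq_one_iff, mul_one, h3, Bool.not_not] at h4
    exact ⟨by simp [h3], h4⟩
  rw [run_cons, D.tt_of_not hnd]
  refine ⟨⟨ε, g, _, D.act g (D.run ((ε', g') :: L') q), rfl, ?_⟩, ?_⟩
  · rw [run_cons, D.tt_of_not hnd]
  · rw [sz_push, D.sz_act]

theorem up_append {M : List (Bool × G)} {q : Stk G Ω} (h : D.Up M q) (L : List (Bool × G))
    (hr : D.Red (L ++ M)) : D.Up (L ++ M) q ∧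
      sz (D.run (L ++ M) q) = sz (D.run M q) + L.length := by
  induction L with
  | nil => exact ⟨h, rfl⟩
  | cons a L ih =>
    obtain ⟨h1, h2⟩ := ih (D.red_tail hr)
    rw [List.cons_append] at hr ⊢
    obtain ⟨h3, h4⟩ := D.up_step hr h1
    refine ⟨h3, ?_⟩
    rw [h4, h2, List.length_cons]
    omega

theorem noPush_or_up (L : List (Bool × G)) (q : Stk G Ω) (hr : D.Red L) :
    D.NoPush L q ∨ D.Up L q := by
  induction L with
  | nil => exact Or.inl trivial
  | cons a L ih =>
    rcases ih (D.red_tail hr) with h | h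
    · obtain ⟨ε, g⟩ := a
      by_cases hd : D.InDom ε (D.act g (D.run L q))
      · exact Or.inl ⟨h, hd⟩
      · exact Or.inr ⟨ε, g, L, _, rfl, D.tt_of_not hd⟩
    · exact Or.inr (D.up_step hr h).1

theorem sz_of_noPush (L : List (Bool × G)) (q : Stk G Ω) (h : D.NoPush L q) :
    sz (D.run L q) = sz q - L.length := by
  induction L with
  | nil => rfl
  | cons a L ih =>
    obtain ⟨ε, g⟩ := a
    obtain ⟨h1, h2⟩ := h
    rw [run_cons, D.tt_of_inDom h2, D.sz_down, D.sz_act, ih h1, List.length_cons]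
    omega

theorem eq_base_of_sz {q : Stk G Ω} (h : sz q = 0) : ∃ x, q = .base x := by
  cases q with
  | base x => exact ⟨x, rfl⟩
  | push ε h' q => simp at h

/-- Periodic points of cyclically reduced words are base points. -/
theorem periodic {N : List (Bool × G)} (hN : N ≠ []) (hr : D.Red (N ++ N)) {q : Stk G Ω}
    (h : D.run N q = q) : (∃ x, q = .base x) ∧ D.NoPush N q := by
  have hr1 : D.Red N := (List.isChain_append.mp hr).1
  have hlen : 0 < N.length := List.length_pos_iff.mpr hN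
  rcases D.noPush_or_up N q hr1 with h1 | h1
  · refine ⟨?_, h1⟩
    have h2 := D.sz_of_noPush N q h1
    rw [h] at h2
    exact eq_base_of_sz (by omega)
  · exfalso
    have h2 := (D.up_append h1 N hr).2
    rw [run_append, h, h] at h2
    omega

/-- The effect of a word on a point that stays in the base level. -/
def brun : List (Bool × G) → Ω → Ω
  | [], x => x
  | (ε, g) :: L, x => D.th ε (g • brun L x)

/-- The point stays in the base level. -/
def Stay : List (Bool × G) → Ω → Prop
  | [], _ => True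
  | (ε, g) :: L, x => Stay L x ∧ g • D.brun L x ∈ D.Dm ε

theorem run_base {L : List (Bool × G)} {x : Ω} (h : D.Stay L x) :
    D.run L (.base x) = .base (D.brun L x) := by
  induction L with
  | nil => rfl
  | cons a L ih =>
    obtain ⟨ε, g⟩ := a
    obtain ⟨h1, h2⟩ := h
    rw [run_cons, ih h1, act_base, D.tt_of_inDom (q := .base (g • D.brun L x)) h2]
    rfl

theorem noPush_base {L : List (Bool × G)} {x : Ω} : D.NoPush L (.base x) ↔ D.Stay L x := by
  induction L with
  | nil => exact Iff.rfl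
  | cons a L ih =>
    obtain ⟨ε, g⟩ := a
    constructor
    · rintro ⟨h1, h2⟩
      refine ⟨ih.mp h1, ?_⟩
      rw [D.run_base (ih.mp h1)] at h2
      exact h2
    · rintro ⟨h1, h2⟩
      refine ⟨ih.mpr h1, ?_⟩
      rw [D.run_base h1]
      exact h2

/-- A reduced word taking a base point to a base point keeps it in the base level. -/
theorem stay_of_run {L : List (Bool × G)} (hr : D.Red L) {x y : Ω}
    (h : D.run L (.base x) = .base y) : D.Stay L x ∧ D.brun L x = y := by
  rcases D.noPush_or_up L (.base x) hr with h1 | h1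
  · have h2 := D.noPush_base.mp h1
    refine ⟨h2, ?_⟩
    rw [D.run_base h2] at h
    exact Stk.base.inj h
  · obtain ⟨ε, g, L', r, -, h2⟩ := h1
    rw [h2] at h
    cases h

theorem brun_append (L M : List (Bool × G)) (x : Ω) :
    D.brun (L ++ M) x = D.brun L (D.brun M x) := by
  induction L with
  | nil => rfl
  | cons a L ih =>
    obtain ⟨ε, g⟩ := a
    simp only [List.cons_append, brun, ih]

theorem stay_append {L M : List (Bool × G)} {x : Ω} (h1 : D.Stay M x)
    (h2 : D.Stay L (D.brun M x)) : D.Stay (L ++ M) x := by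
  induction L with
  | nil => exact h1
  | cons a L ih =>
    obtain ⟨ε, g⟩ := a
    refine ⟨ih h2.1, ?_⟩
    change g • D.brun (L ++ M) x ∈ D.Dm ε
    rw [brun_append]
    exact h2.2

theorem th_injOn {ε : Bool} {x y : Ω} (hx : x ∈ D.Dm ε) (hy : y ∈ D.Dm ε)
    (h : D.th ε x = D.th ε y) : x = y := by
  rw [← D.th_inv ε x hx, ← D.th_inv ε y hy, h]

theorem brun_inj {L : List (Bool × G)} {x y : Ω} (hx : D.Stay L x) (hy : D.Stay L y)
    (h : D.brun L x = D.brun L y) : x = y := by
  induction L with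
  | nil => exact h
  | cons a L ih =>
    obtain ⟨ε, g⟩ := a
    apply ih hx.1 hy.1
    exact MulAction.injective g (D.th_injOn hx.2 hy.2 h)

/-- The fixed points of a nontrivial element of `G` are base points. -/
theorem fix_act (pf : ∀ (ε : Bool) (c : G) (x : Ω), c ∈ D.Cg ε → c ≠ 1 → c • x = x → x ∈ D.Dm ε)
    {g : G} (hg : g ≠ 1) {q : Stk G Ω} (hq : D.Valid q) (h : D.act g q = q) :
    ∃ x, q = .base x ∧ g • x = x := by
  induction q generalizing g with
  | base x => exact ⟨x, rfl, Stk.base.inj h⟩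
  | push ε h' q ih =>
    exfalso
    obtain ⟨h1, h2, h3⟩ := hq
    rw [act_push] at h
    injection h with _ h4 h5
    have hc : h'⁻¹ * (g * h') ∈ D.Cg (!ε) := by
      have := D.rep_mem ε (g * h')
      rwa [h4] at this
    rw [h4] at h5
    have hne : h'⁻¹ * (g * h') ≠ 1 := by
      intro h6
      apply hg
      have : g = h' * (h'⁻¹ * (g * h')) * h'⁻¹ := by group
      rw [this, h6]
      group
    obtain ⟨x, rfl, hx⟩ := ih (D.φ_ne_one hc hne) h3 h5
    apply h2
    have hc2 := D.φ_mem _ _ hc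
    rw [Bool.not_not] at hc2
    exact pf ε _ x hc2 (D.φ_ne_one hc hne) hx

/-- Four distinct points do not stay in the base level for long. -/
theorem four_stay
    (q1 : ∀ (δ ε : Bool) (g : G) (z : Fin 4 → Ω), Function.Injective z → (∀ i, z i ∈ D.Dm δ) →
      (∀ i, g • z i ∈ D.Dm ε) → ε = δ ∧ (ε = true → g ∈ D.Cg true))
    {L : List (Bool × G)} (hr : D.Red L) (hlen : 3 ≤ L.length) (x : Fin 4 → Ω)
    (hx : Function.Injective x) (h : ∀ i, D.Stay L (x i)) : False := by
  match L, hr, hlen, h with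
  | (ε1, g1) :: (ε2, g2) :: (ε3, g3) :: L', hr, _, h =>
    have hc12 : D.NP (ε1, g1) (ε2, g2) := (List.isChain_cons_cons.mp hr).1
    have hc23 : D.NP (ε2, g2) (ε3, g3) := (List.isChain_cons_cons.mp (List.isChain_cons_cons.mp hr).2).1
    have hy : Function.Injective (fun i => D.brun L' (x i)) := by
      intro i j hij
      exact hx (D.brun_inj (h i).1.1.1 (h j).1.1.1 hij)
    -- after the first letter
    have hz : Function.Injective (fun i => D.brun ((ε3, g3) :: L') (x i)) := by
      intro i j hij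
      exact hx (D.brun_inj (h i).1.1 (h j).1.1 hij)
    have hw : Function.Injective (fun i => D.brun ((ε2, g2) :: (ε3, g3) :: L') (x i)) := by
      intro i j hij
      exact hx (D.brun_inj (h i).1 (h j).1 hij)
    obtain ⟨e1, e2⟩ := q1 (!ε3) ε2 g2 _ hz (fun i => D.th_mem _ _ (h i).1.1.2) (fun i => (h i).1.2)
    obtain ⟨e3, e4⟩ := q1 (!ε2) ε1 g1 _ hw (fun i => D.th_mem _ _ (h i).1.2) (fun i => (h i).2)
    by_cases h2 : ε2 = true
    · apply hc23
      refine ⟨e1, ?_⟩
      have := e2 h2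
      rw [← h2] at this
      exact this
    · have h2' : ε2 = false := by simpa using h2
      have h1 : ε1 = true := by rw [e3, h2']; rfl
      apply hc12
      refine ⟨e3, ?_⟩
      have := e4 h1
      rw [← h1] at this
      exact this

end Data

end Pool.Agent.Lib.MP_0dd7b8_al

/-!
# The group generated by `G` and the stable letter
-/

set_option autoImplicit false
set_option linter.unusedSectionVars false

namespace Pool.Agent.Lib.MP_0dd7b8_al

open Equiv

namespace Data

variable {G Ω : Type} [Group G] [MulAction G Ω] (D : Data G Ω)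

/-- The points of the tree of copies. -/
def Pt : Type := {q : Stk G Ω // D.Valid q}

instance : MulAction G D.Pt where
  smul g q := ⟨D.act g q.1, D.valid_act g q.2⟩
  one_smul q := Subtype.ext (D.act_one q.1 q.2)
  mul_smul g h q := Subtype.ext (D.act_mul g h q.1)

theorem coe_smul (g : G) (q : D.Pt) : (g • q).1 = D.act g q.1 := rfl

/-- The permutation given by an element of `G`. -/
def P : G →* Perm D.Pt := MulAction.toPermHom G D.Pt

theorem P_apply (g : G) (q : D.Pt) : (D.P g q).1 = D.act g q.1 := rfl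

/-- The stable letter and its inverse. -/
noncomputable def t (ε : Bool) : Perm D.Pt where
  toFun q := ⟨D.tt ε q.1, D.valid_tt ε q.2⟩
  invFun q := ⟨D.tt (!ε) q.1, D.valid_tt (!ε) q.2⟩
  left_inv q := Subtype.ext (D.tt_tt ε q.2)
  right_inv q := Subtype.ext (by
    have := D.tt_tt (!ε) q.2
    rwa [Bool.not_not] at this)

theorem t_apply (ε : Bool) (q : D.Pt) : (D.t ε q).1 = D.tt ε q.1 := rfl

theorem t_not (ε : Bool) : D.t (!ε) = (D.t ε)⁻¹ := by
  ext q
  rfl

theorem t_P {ε : Bool} {c : G} (hc : c ∈ D.Cg ε) : D.t ε * D.P c = D.P (D.φ ε c) * D.t ε := by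
  ext q
  exact Subtype.ext (D.tt_act hc q.2)

/-- The permutation given by a word. -/
noncomputable def W : List (Bool × G) → Perm D.Pt
  | [] => 1
  | (ε, g) :: L => D.t ε * D.P g * W L

@[simp] theorem W_nil : D.W [] = 1 := rfl
theorem W_cons (ε : Bool) (g : G) (L : List (Bool × G)) :
    D.W ((ε, g) :: L) = D.t ε * D.P g * D.W L := rfl

theorem W_append (L M : List (Bool × G)) : D.W (L ++ M) = D.W L * D.W M := by
  induction L with
  | nil => simp
  | cons a L ih =>
    obtain ⟨ε, g⟩ := a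
    rw [List.cons_append, W_cons, W_cons, ih]
    group

theorem W_apply (L : List (Bool × G)) (q : D.Pt) : (D.W L q).1 = D.run L q.1 := by
  induction L with
  | nil => rfl
  | cons a L ih =>
    obtain ⟨ε, g⟩ := a
    rw [W_cons, run_cons, ← ih]
    rfl

/-- The extended group. -/
def Ext : Subgroup (Perm D.Pt) := Subgroup.closure (Set.range D.P ∪ Set.range D.t)

theorem P_mem (g : G) : D.P g ∈ D.Ext := Subgroup.subset_closure (Or.inl ⟨g, rfl⟩)
theorem t_mem (ε : Bool) : D.t ε ∈ D.Ext := Subgroup.subset_closure (Or.inr ⟨ε, rfl⟩)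

theorem form_t (ε : Bool) (g : G) (L : List (Bool × G)) (hL : D.Red L) :
    ∃ (g' : G) (L' : List (Bool × G)), D.Red L' ∧ D.t ε * (D.P g * D.W L) = D.P g' * D.W L' := by
  by_cases h : D.Red ((ε, g) :: L)
  · refine ⟨1, (ε, g) :: L, h, ?_⟩
    rw [W_cons, map_one, one_mul, mul_assoc]
  · match L, hL, h with
    | [], _, h => exact absurd (List.isChain_singleton _) h
    | (ε', g') :: L', hL, h =>
      have h1 : ¬ D.NP (ε, g) (ε', g') := by
        intro h1
        exact h (List.isChain_cons_cons.mpr ⟨h1, hL⟩)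
      simp only [NP, not_not] at h1
      obtain ⟨rfl, h2⟩ := h1
      refine ⟨D.φ (!ε') g * g', L', D.red_tail hL, ?_⟩
      rw [W_cons, map_mul]
      have h3 := D.t_P h2
      rw [← mul_assoc, h3, t_not]
      group

/-- Every element of the group is given by a reduced word. -/
theorem form {f : Perm D.Pt} (hf : f ∈ D.Ext) :
    ∃ (g : G) (L : List (Bool × G)), D.Red L ∧ f = D.P g * D.W L := by
  induction hf using Subgroup.closure_induction_left with
  | one => exact ⟨1, [], List.isChain_nil, by simp⟩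
  | mul_left x hx y hy ih =>
    obtain ⟨g, L, hL, rfl⟩ := ih
    rcases hx with ⟨g', rfl⟩ | ⟨ε, rfl⟩
    · exact ⟨g' * g, L, hL, by rw [map_mul, mul_assoc]⟩
    · exact D.form_t ε g L hL
  | inv_mul_cancel x hx y hy ih =>
    obtain ⟨g, L, hL, rfl⟩ := ih
    rcases hx with ⟨g', rfl⟩ | ⟨ε, rfl⟩
    · exact ⟨g'⁻¹ * g, L, hL, by rw [map_mul, map_inv, mul_assoc]⟩
    · rw [← t_not]
      exact D.form_t (!ε) g L hL

/-- Changing the group element of the last letter keeps a word reduced. -/
theorem red_last {M : List (Bool × G)} {ε : Bool} {g g' : G} (h : D.Red (M ++ [(ε, g)])) :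
    D.Red (M ++ [(ε, g')]) := by
  rw [Red, List.isChain_append] at h ⊢
  refine ⟨h.1, List.isChain_singleton _, ?_⟩
  intro x hx y hy
  have h1 := h.2.2 x hx (ε, g) (by simp)
  simp only [List.head?_cons, Option.mem_def, Option.some.injEq] at hy
  subst hy
  exact h1

/-- Every element is conjugate into `G` or to a cyclically reduced word. -/
theorem classify (L : List (Bool × G)) (g : G) (hL : D.Red L) :
    (∃ (u : Perm D.Pt) (g' : G), D.P g * D.W L = u * D.P g' * u⁻¹) ∨
    (∃ (u : Perm D.Pt) (N : List (Bool × G)), N ≠ [] ∧ D.Red (N ++ N) ∧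
      D.P g * D.W L = u * D.W N * u⁻¹) := by
  induction hn : L.length using Nat.strong_induction_on generalizing L g with
  | _ n ih =>
  subst hn
  rcases List.eq_nil_or_concat' L with rfl | ⟨M, ⟨ε', g'⟩, rfl⟩
  · exact Or.inl ⟨1, g, by simp⟩
  · have hN := D.red_last (g' := g' * g) hL
    have hconj : D.P g * D.W (M ++ [(ε', g')]) =
        D.P g * D.W (M ++ [(ε', g' * g)]) * (D.P g)⁻¹ := by
      rw [W_append, W_append, W_cons, W_cons, map_mul]
      simp only [W_nil]
      group
    by_cases h : D.Red ((M ++ [(ε', g' * g)]) ++ (M ++ [(ε', g' * g)]))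
    · exact Or.inr ⟨D.P g, _, by simp, h, hconj⟩
    · rw [Red, List.isChain_append] at h
      match M, hL, hN, h, hconj, ih with
      | [], hL, hN, h, hconj, ih =>
        exfalso
        apply h
        refine ⟨hN, hN, ?_⟩
        intro x hx y hy
        simp at hx hy
        subst hx
        subst hy
        simp [NP]
      | (ε, g₁) :: M', hL, hN, h, hconj, ih =>
        have h1 : ¬ D.NP (ε', g' * g) (ε, g₁) := by
          intro h1
          apply h
          refine ⟨hN, hN, ?_⟩
          intro x hx y hy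
          rw [List.getLast?_concat, Option.mem_def, Option.some.injEq] at hx
          simp at hy
          subst hx
          subst hy
          exact h1
        simp only [NP, not_not] at h1
        obtain ⟨h2, h3⟩ := h1
        have hM' : D.Red M' := (List.isChain_append.mp (D.red_tail hN)).1
        have hlen : M'.length < ((ε, g₁) :: M' ++ [(ε', g')]).length := by
          simp
        -- rotate the last letter to the front
        have hrot : D.P g * D.W ((ε, g₁) :: M' ++ [(ε', g')]) =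
            (D.P g * (D.t ε' * D.P (g' * g))⁻¹) *
              (D.P (D.φ ε' (g' * g) * g₁) * D.W M') *
              (D.P g * (D.t ε' * D.P (g' * g))⁻¹)⁻¹ := by
          rw [hconj, List.cons_append, W_cons, W_append, W_cons, map_mul D.P _ g₁]
          have h4 := D.t_P h3
          have h5 : D.t ε = (D.t ε')⁻¹ := by
            rw [h2, t_not, inv_inv]
          have h6 : D.P (D.φ ε' (g' * g)) = D.t ε' * D.P (g' * g) * (D.t ε')⁻¹ := by
            rw [h4]
            group
          rw [h5, h6, W_nil]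
          group
        rcases ih M'.length hlen M' (D.φ ε' (g' * g) * g₁) hM' rfl with ⟨u, k, hk⟩ | ⟨u, N, hN1, hN2, hN3⟩
        · left
          refine ⟨(D.P g * (D.t ε' * D.P (g' * g))⁻¹) * u, k, ?_⟩
          rw [hrot, hk]
          group
        · right
          refine ⟨(D.P g * (D.t ε' * D.P (g' * g))⁻¹) * u, N, hN1, hN2, ?_⟩
          rw [hrot, hN3]
          group

end Data

end Pool.Agent.Lib.MP_0dd7b8_al

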