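import Mathlib

/-!
# The free superposition of the random 4-tournament and the triangle-free random graph

The language with a binary relation symbol `edge` (the relation `E`) and a 4-ary relation symbol
`tour` (the relation `R`), and the class of finite structures whose `E`-reduct is a triangle-free
simple graph and whose `R`-reduct is a 4-tournament.
-/

set_option autoImplicit false

namespace Pool.Agent.Lib.MP_0dd7b8_al

open FirstOrder CategoryTheory

/-- Relation symbols: a binary symbol `edge` and a 4-ary symbol `tour`. -/
inductive Sym : ℕ → Type
  | edge : Sym 2
  | tour : Sym 4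

/-- The relational language `{E, R}`. -/
def lang : FirstOrder.Language := ⟨fun _ => Empty, Sym⟩

instance : lang.IsRelational := fun _ => (inferInstance : IsEmpty Empty)

section

variable {M : Type} [lang.Structure M]

/-- The relation `E`. -/
def Edge (x y : M) : Prop := Language.Structure.RelMap (L := lang) Sym.edge ![x, y]

/-- The relation `R`. -/
def Tour (x : Fin 4 → M) : Prop := Language.Structure.RelMap (L := lang) Sym.tour x

end

/-- The `E`-reduct is a triangle-free simple graph. -/
def IsTriangleFreeGraph (M : Type) [lang.Structure M] : Prop :=
  (∀ x y : M, Edge x y → Edge y x) ∧ (∀ x : M, ¬ Edge x x) ∧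
    ∀ x y z : M, Edge x y → Edge y z → Edge x z → False

/-- The `R`-reduct is a 4-tournament: `R` holds only for tuples of distinct elements and, for any
four distinct elements `x 0, x 1, x 2, x 3`, the permutations `x i ↦ x (σ i)` that are
automorphisms of the `R`-structure induced on these four elements are the even ones. -/
def IsFourTournament (M : Type) [lang.Structure M] : Prop :=
  (∀ x : Fin 4 → M, Tour x → Function.Injective x) ∧
    ∀ x : Fin 4 → M, Function.Injective x → ∀ σ : Equiv.Perm (Fin 4),
      (∀ w : Fin 4 → Fin 4, Tour (x ∘ σ ∘ w) ↔ Tour (x ∘ w)) ↔ σ ∈ alternatingGroup (Fin 4)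

/-- The finite `{E, R}`-structures whose `E`-reduct is a triangle-free graph and whose `R`-reduct
is a 4-tournament. Its Fraïssé limit is the free superposition of the random 4-tournament and of
the triangle-free random graph. -/
def mixClass : Set (Bundled.{0} lang.Structure) :=
  {M | Finite M ∧ IsTriangleFreeGraph M ∧ IsFourTournament M}

/-- A group `G` acting on the `{E, R}`-structure `M`, which has at least `k` points, does so by
automorphisms, and for all tuples `a`, `b` of `k` distinct points such that `a i ↦ b i` is an
isomorphism of the induced substructures there is exactly one `g : G` with `g • a i = b i` for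
all `i`. -/
def StructurallySharplyTransitive (k : ℕ) (G M : Type) [Group G] [lang.Structure M]
    [MulAction G M] : Prop :=
  (∃ x : Fin k → M, Function.Injective x) ∧
  (∀ (g : G) (n : ℕ) (r : lang.Relations n) (x : Fin n → M),
    Language.Structure.RelMap r (fun i => g • x i) ↔ Language.Structure.RelMap r x) ∧
  ∀ a b : Fin k → M, Function.Injective a → Function.Injective b →
    (∀ (n : ℕ) (r : lang.Relations n) (w : Fin n → Fin k),
      Language.Structure.RelMap r (a ∘ w) ↔ Language.Structure.RelMap r (b ∘ w)) →
    ∃! g : G, ∀ i, g • a i = b i

end Pool.Agent.Lib.MP_0dd7b8_al
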