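import Pool.Agent.Lib.MP_0dd7b8_al.Init
import Pool.Agent.Lib.MP_0dd7b8_al.Statement

/-!
# Limits of chains of good pairs
-/

set_option autoImplicit false
set_option linter.unusedSectionVars false

namespace Pool.Agent.Lib.MP_0dd7b8_al

open Equiv

section chain

variable (P : ℕ → Pair) (h : ∀ n, Hom (P n) (P (n + 1)))

/-- The composite embeddings of a chain. -/
def homLE (m n : ℕ) (hmn : m ≤ n) : Hom (P m) (P n) :=
  Nat.leRec (motive := fun n _ => Hom (P m) (P n)) (Hom.id _) (fun n _ k => (h n).comp k) hmn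

theorem homLE_self (m : ℕ) : homLE P h m m le_rfl = Hom.id _ := by
  rw [homLE, Nat.leRec_self]

theorem homLE_succ (m n : ℕ) (hmn : m ≤ n) :
    homLE P h m (n + 1) (Nat.le_succ_of_le hmn) = (h n).comp (homLE P h m n hmn) := by
  rw [homLE, homLE, Nat.leRec_succ]

theorem homLE_f_trans (m n k : ℕ) (hmn : m ≤ n) (hnk : n ≤ k) (x : (P m).Ω) :
    (homLE P h n k hnk).f ((homLE P h m n hmn).f x) = (homLE P h m k (hmn.trans hnk)).f x := by
  induction k, hnk using Nat.le_induction with
  | base =>
    rw [homLE_self]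
    rfl
  | succ k hk ih =>
    rw [homLE_succ P h n k hk, homLE_succ P h m k (hmn.trans hk)]
    exact congrArg (h k).f ih

theorem homLE_ρ_trans (m n k : ℕ) (hmn : m ≤ n) (hnk : n ≤ k) (x : (P m).G) :
    (homLE P h n k hnk).ρ ((homLE P h m n hmn).ρ x) = (homLE P h m k (hmn.trans hnk)).ρ x := by
  induction k, hnk using Nat.le_induction with
  | base =>
    rw [homLE_self]
    rfl
  | succ k hk ih =>
    rw [homLE_succ P h n k hk, homLE_succ P h m k (hmn.trans hk)]
    exact congrArg (h k).ρ ih

/-- The maps on points. -/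
def emb (m n : ℕ) (hmn : m ≤ n) : (P m).Ω ↪ (P n).Ω :=
  ⟨(homLE P h m n hmn).f, (homLE P h m n hmn).inj⟩

/-- The maps on groups. -/
def gh (m n : ℕ) (hmn : m ≤ n) : (P m).G →* (P n).G := (homLE P h m n hmn).ρ

instance sysΩ : DirectedSystem (fun n => (P n).Ω) (fun m n hmn => (emb P h m n hmn : (P m).Ω → (P n).Ω)) where
  map_self m x := by
    change (homLE P h m m le_rfl).f x = x
    rw [homLE_self]
    rfl
  map_map {k j i} hij hjk x := homLE_f_trans P h i j k hij hjk x

instance sysG : DirectedSystem (fun n => (P n).G) (fun m n hmn => (gh P h m n hmn : (P m).G → (P n).G)) where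
  map_self m x := by
    change (homLE P h m m le_rfl).ρ x = x
    rw [homLE_self]
    rfl
  map_map {k j i} hij hjk x := homLE_ρ_trans P h i j k hij hjk x

/-- The points of the limit. -/
abbrev LimΩ : Type := DirectLimit (fun n => (P n).Ω) (emb P h)

/-- The group of the limit. -/
abbrev LimG : Type := DirectLimit (fun n => (P n).G) (gh P h)

/-- The inclusion of a stage. -/
def inc (n : ℕ) (x : (P n).Ω) : LimΩ P h := ⟦⟨n, x⟩⟧

/-- The inclusion of a stage. -/
def incG (n : ℕ) (x : (P n).G) : LimG P h := ⟦⟨n, x⟩⟧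

theorem inc_inj (n : ℕ) : Function.Injective (inc P h n) :=
  DirectLimit.mk_injective (emb P h) (fun i j hij => (emb P h i j hij).injective) n

theorem inc_emb (m n : ℕ) (hmn : m ≤ n) (x : (P m).Ω) :
    inc P h n ((homLE P h m n hmn).f x) = inc P h m x :=
  DirectLimit.mk_apply (F := fun n => (P n).Ω) (f := emb P h) m n x hmn

theorem incG_gh (m n : ℕ) (hmn : m ≤ n) (x : (P m).G) :
    incG P h n ((homLE P h m n hmn).ρ x) = incG P h m x :=
  DirectLimit.mk_apply (F := fun n => (P n).G) (f := gh P h) m n x hmn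

theorem exists_inc (x : LimΩ P h) : ∃ N, ∀ n, N ≤ n → ∃ y, x = inc P h n y := by
  obtain ⟨N, y, rfl⟩ := DirectLimit.exists_eq_mk (emb P h) x
  exact ⟨N, fun n hn => ⟨_, (inc_emb P h N n hn y).symm⟩⟩

theorem exists_incG (x : LimG P h) : ∃ N, ∀ n, N ≤ n → ∃ y, x = incG P h n y := by
  obtain ⟨N, y, rfl⟩ := DirectLimit.exists_eq_mk (gh P h) x
  exact ⟨N, fun n hn => ⟨_, (incG_gh P h N n hn y).symm⟩⟩

theorem exists_inc_tuple {k : ℕ} (x : Fin k → LimΩ P h) :
    ∃ N, ∀ n, N ≤ n → ∃ y : Fin k → (P n).Ω, x = inc P h n ∘ y := by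
  choose N hN using fun i => exists_inc P h (x i)
  refine ⟨Finset.univ.sup N, ?_⟩
  intro n hn
  have h1 : ∀ i, N i ≤ n := fun i => (Finset.le_sup (Finset.mem_univ i)).trans hn
  choose y hy using fun i => hN i n (h1 i)
  exact ⟨y, funext hy⟩

noncomputable instance : SMul (LimG P h) (LimΩ P h) where
  smul := DirectLimit.map₂ (gh P h) (emb P h) (emb P h) (fun _ g x => g • x)
    (fun i j hij g x => (homLE P h i j hij).equi g x)

theorem smul_inc (n : ℕ) (g : (P n).G) (x : (P n).Ω) :
    incG P h n g • inc P h n x = inc P h n (g • x) :=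
  DirectLimit.map₂_def (gh P h) (emb P h) (emb P h) (fun _ g x => g • x)
    (fun i j hij g x => (homLE P h i j hij).equi g x) n g x

theorem incG_mul (n : ℕ) (g g' : (P n).G) :
    incG P h n (g * g') = incG P h n g * incG P h n g' :=
  (DirectLimit.mul_def (G := fun n => (P n).G) (f := gh P h) n g g').symm

theorem incG_one (n : ℕ) : incG P h n 1 = 1 := (DirectLimit.one_def (f := gh P h) n).symm

noncomputable instance : MulAction (LimG P h) (LimΩ P h) where
  one_smul x := by
    obtain ⟨n, hn⟩ := exists_inc P h x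
    obtain ⟨y, rfl⟩ := hn n le_rfl
    rw [← incG_one P h n, smul_inc, one_smul]
  mul_smul g g' x := by
    obtain ⟨n1, h1⟩ := exists_incG P h g
    obtain ⟨n2, h2⟩ := exists_incG P h g'
    obtain ⟨n3, h3⟩ := exists_inc P h x
    obtain ⟨a, rfl⟩ := h1 (max n1 (max n2 n3)) (le_max_left _ _)
    obtain ⟨b, rfl⟩ := h2 (max n1 (max n2 n3)) ((le_max_left _ _).trans (le_max_right _ _))
    obtain ⟨y, rfl⟩ := h3 (max n1 (max n2 n3)) ((le_max_right _ _).trans (le_max_right _ _))
    rw [← incG_mul, smul_inc, smul_inc, smul_inc, mul_smul]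

/-- The inclusion of the groups. -/
def incGHom (n : ℕ) : (P n).G →* LimG P h where
  toFun := incG P h n
  map_one' := incG_one P h n
  map_mul' := incG_mul P h n

/-- The graph of the limit. -/
def limE (x y : LimΩ P h) : Prop :=
  ∃ n a b, x = inc P h n a ∧ y = inc P h n b ∧ (P n).S.E a b

/-- The orientation of the limit. -/
def limR (x : Fin 4 → LimΩ P h) : Prop :=
  ∃ n a, x = inc P h n ∘ a ∧ (P n).S.R a

theorem limE_inc (n : ℕ) (a b : (P n).Ω) :
    limE P h (inc P h n a) (inc P h n b) ↔ (P n).S.E a b := by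
  constructor
  · rintro ⟨m, a', b', ha, hb, hE⟩
    have e1 := (homLE P h n (max n m) (le_max_left _ _)).E a b
    have e2 := (homLE P h m (max n m) (le_max_right _ _)).E a' b'
    rw [← inc_emb P h n (max n m) (le_max_left _ _) a,
      ← inc_emb P h m (max n m) (le_max_right _ _) a'] at ha
    rw [← inc_emb P h n (max n m) (le_max_left _ _) b,
      ← inc_emb P h m (max n m) (le_max_right _ _) b'] at hb
    rw [← e1, inc_inj P h _ ha, inc_inj P h _ hb, e2]
    exact hE
  · intro h'
    exact ⟨n, a, b, rfl, rfl, h'⟩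

theorem limR_inc (n : ℕ) (a : Fin 4 → (P n).Ω) :
    limR P h (inc P h n ∘ a) ↔ (P n).S.R a := by
  constructor
  · rintro ⟨m, a', ha, hR⟩
    have e1 := (homLE P h n (max n m) (le_max_left _ _)).R a
    have e2 := (homLE P h m (max n m) (le_max_right _ _)).R a'
    have e3 : (homLE P h n (max n m) (le_max_left _ _)).f ∘ a =
        (homLE P h m (max n m) (le_max_right _ _)).f ∘ a' := by
      funext i
      apply inc_inj P h
      rw [Function.comp_apply, Function.comp_apply, inc_emb, inc_emb]
      exact congrFun ha i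
    rw [← e1, e3, e2]
    exact hR
  · intro h'
    exact ⟨n, a, rfl, h'⟩

theorem inc_tuple_inj {k n : ℕ} {a : Fin k → (P n).Ω}
    (ha : Function.Injective (inc P h n ∘ a)) : Function.Injective a :=
  fun i j hij => ha (congrArg (inc P h n) hij)

/-- The structure on the limit. -/
def limS : Str (LimΩ P h) where
  E := limE P h
  R := limR P h
  E_symm := by
    rintro x y ⟨n, a, b, rfl, rfl, h'⟩
    exact ⟨n, b, a, rfl, rfl, (P n).S.E_symm _ _ h'⟩
  E_irrefl := by
    intro x
    obtain ⟨n, hn⟩ := exists_inc P h x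
    obtain ⟨a, rfl⟩ := hn n le_rfl
    rw [limE_inc]
    exact (P n).S.E_irrefl a
  E_tri := by
    intro x y z
    obtain ⟨n, hn⟩ := exists_inc_tuple P h ![x, y, z]
    obtain ⟨a, ha⟩ := hn n le_rfl
    have hx : x = inc P h n (a 0) := congrFun ha 0
    have hy : y = inc P h n (a 1) := congrFun ha 1
    have hz : z = inc P h n (a 2) := congrFun ha 2
    rw [hx, hy, hz, limE_inc, limE_inc, limE_inc]
    exact (P n).S.E_tri _ _ _
  R_inj := by
    rintro x ⟨n, a, rfl, h'⟩
    exact (inc_inj P h n).comp ((P n).S.R_inj a h')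
  R_alt := by
    intro x σ hx
    obtain ⟨n, hn⟩ := exists_inc_tuple P h x
    obtain ⟨a, rfl⟩ := hn n le_rfl
    have h1 : (inc P h n ∘ a) ∘ σ = inc P h n ∘ (a ∘ σ) := rfl
    rw [h1, limR_inc, limR_inc]
    exact (P n).S.R_alt a σ (inc_tuple_inj P h hx)

theorem exists_common {k : ℕ} (g : LimG P h) (x : Fin k → LimΩ P h) (m : ℕ) :
    ∃ n, m ≤ n ∧ ∃ (a : (P n).G) (y : Fin k → (P n).Ω), g = incG P h n a ∧ x = inc P h n ∘ y := by
  obtain ⟨n1, h1⟩ := exists_incG P h g
  obtain ⟨n2, h2⟩ := exists_inc_tuple P h x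
  obtain ⟨a, ha⟩ := h1 (max m (max n1 n2)) ((le_max_left _ _).trans (le_max_right _ _))
  obtain ⟨y, hy⟩ := h2 (max m (max n1 n2)) ((le_max_right _ _).trans (le_max_right _ _))
  exact ⟨_, le_max_left _ _, a, y, ha, hy⟩

theorem incG_pow (n : ℕ) (g : (P n).G) (k : ℕ) : incG P h n (g ^ k) = incG P h n g ^ k :=
  map_pow (incGHom P h n) g k

/-- If an element of the limit is trivial, it is trivial at a later stage. -/
theorem incG_eq_one {n : ℕ} {g : (P n).G} (hg : incG P h n g = 1) : g = 1 := by
  obtain ⟨x, hx⟩ := (P n).four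
  apply (P n).good.sharp g x hx
  funext i
  apply inc_inj P h n
  change inc P h n (g • x i) = _
  rw [← smul_inc, hg, one_smul]

theorem lim_good : Good (LimG P h) (LimΩ P h) (limS P h) where
  mapE g x y := by
    obtain ⟨n, -, a, z, rfl, hz⟩ := exists_common P h g ![x, y] 0
    have hx : x = inc P h n (z 0) := congrFun hz 0
    have hy : y = inc P h n (z 1) := congrFun hz 1
    rw [hx, hy, smul_inc, smul_inc]
    exact (limE_inc P h n _ _).trans (((P n).good.mapE a _ _).trans (limE_inc P h n _ _).symm)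
  mapR g x := by
    obtain ⟨n, -, a, z, rfl, rfl⟩ := exists_common P h g x 0
    have h1 : incG P h n a • (inc P h n ∘ z) = inc P h n ∘ (a • z) := by
      funext i
      exact smul_inc P h n a (z i)
    rw [h1]
    exact (limR_inc P h n _).trans (((P n).good.mapR a _).trans (limR_inc P h n _).symm)
  sharp g x hx hg := by
    obtain ⟨n, -, a, z, rfl, rfl⟩ := exists_common P h g x 0
    have h1 : a = 1 := by
      apply (P n).good.sharp a z (inc_tuple_inj P h hx)
      funext i
      apply inc_inj P h n
      have := congrFun hg i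
      rw [Pi.smul_apply, Function.comp_apply, smul_inc] at this
      exact this
    rw [h1, incG_one]
  invol g x h1 h2 h3 := by
    obtain ⟨n, -, a, z, rfl, hz⟩ := exists_common P h g ![x] 0
    have hx : x = inc P h n (z 0) := congrFun hz 0
    rw [hx, smul_inc] at h3
    refine (P n).good.invol a (z 0) ?_ ?_ (inc_inj P h n h3)
    · rintro rfl
      exact h1 (incG_one P h n)
    · rw [← incG_pow] at h2
      exact incG_eq_one P h h2
  three g x y h1 h2 h3 h4 := by
    obtain ⟨n, -, a, z, rfl, hz⟩ := exists_common P h g ![x, y] 0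
    have hx : x = inc P h n (z 0) := congrFun hz 0
    have hy : y = inc P h n (z 1) := congrFun hz 1
    rw [hx, smul_inc] at h3
    rw [hy, smul_inc] at h4
    rw [hx, hy]
    congr 1
    refine (P n).good.three a (z 0) (z 1) ?_ ?_ (inc_inj P h n h3) (inc_inj P h n h4)
    · rintro rfl
      exact h1 (incG_one P h n)
    · rw [← incG_pow] at h2
      exact incG_eq_one P h h2
  noFour g h4 := by
    obtain ⟨n, -, a, z, rfl, -⟩ := exists_common P h g ![] 0
    rw [← incG_pow] at h4 ⊢
    rw [(P n).good.noFour a (incG_eq_one P h h4), incG_one]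

/-- The limit of a chain of good pairs. -/
noncomputable def lim : Pair where
  Ω := LimΩ P h
  G := LimG P h
  S := limS P h
  good := lim_good P h
  cnt := Quotient.countable
  four := by
    obtain ⟨x, hx⟩ := (P 0).four
    exact ⟨inc P h 0 ∘ x, (inc_inj P h 0).comp hx⟩

/-- The embedding of a stage into the limit. -/
noncomputable def toLim (n : ℕ) : Hom (P n) (lim P h) where
  f := inc P h n
  ρ := incGHom P h n
  inj := inc_inj P h n
  E := limE_inc P h n
  R := limR_inc P h n
  equi g x := (smul_inc P h n g x).symm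

theorem toLim_f (m n : ℕ) (hmn : m ≤ n) (x : (P m).Ω) :
    (toLim P h n).f ((homLE P h m n hmn).f x) = (toLim P h m).f x := inc_emb P h m n hmn x

theorem toLim_tuple {k : ℕ} (x : Fin k → (lim P h).Ω) :
    ∃ n, ∃ y : Fin k → (P n).Ω, x = (toLim P h n).f ∘ y := by
  obtain ⟨N, hN⟩ := exists_inc_tuple P h x
  exact ⟨N, hN N le_rfl⟩

end chain

end Pool.Agent.Lib.MP_0dd7b8_al

/-!
# A good pair realising everything
-/

set_option autoImplicit false
set_option linter.unusedSectionVars false

namespace Pool.Agent.Lib.MP_0dd7b8_al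

open Equiv

/-- Requirements. -/
inductive Req (Ω : Type) where
  | ext (k : ℕ) (F : Fin k → Ω) (T : Str (Option (Fin k)))
  | tup (a b : Fin 4 → Ω)

/-- Transport of requirements. -/
def Req.map {Ω Ω' : Type} (f : Ω → Ω') : Req Ω → Req Ω'
  | .ext k F T => .ext k (f ∘ F) T
  | .tup a b => .tup (f ∘ a) (f ∘ b)

theorem Req.map_map {Ω Ω' Ω'' : Type} (f : Ω → Ω') (g : Ω' → Ω'') (r : Req Ω) :
    (r.map f).map g = r.map (g ∘ f) := by
  cases r <;> rfl

theorem Str.ext' {Ω : Type} {S T : Str Ω} (h1 : S.E = T.E) (h2 : S.R = T.R) : S = T := by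
  cases S
  cases T
  cases h1
  cases h2
  rfl

instance {Ω : Type} [Finite Ω] : Countable (Str Ω) := by
  have : Function.Injective (fun S : Str Ω => (S.E, S.R)) := by
    intro S T h
    exact Str.ext' (congrArg Prod.fst h) (congrArg Prod.snd h)
  exact this.countable

instance {Ω : Type} [Countable Ω] : Countable (Req Ω) := by
  let enc : Req Ω → (Σ k : ℕ, (Fin k → Ω) × Str (Option (Fin k))) ⊕
      ((Fin 4 → Ω) × (Fin 4 → Ω)) := fun r =>
    match r with
    | .ext k F T => .inl ⟨k, F, T⟩
    | .tup a b => .inr (a, b)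
  have : Function.Injective enc := by
    intro r s h
    cases r <;> cases s <;> simp only [enc, Sum.inl.injEq, Sum.inr.injEq, Sigma.mk.injEq,
      Prod.mk.injEq, reduceCtorEq] at h
    · obtain ⟨rfl, h⟩ := h
      simp only [heq_eq_eq, Prod.mk.injEq] at h
      rw [h.1, h.2]
    · rw [h.1, h.2]
  exact this.countable

/-- A requirement is satisfied. -/
def Sat (P : Pair) : Req P.Ω → Prop
  | .ext k F T => Function.Injective F →
      (∀ i j, T.E (some i) (some j) ↔ P.S.E (F i) (F j)) →
      (∀ z : Fin 4 → Fin k, T.R (some ∘ z) ↔ P.S.R (F ∘ z)) →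
      ∃ p : P.Ω, (∀ i, p ≠ F i) ∧ (∀ i, P.S.E p (F i) ↔ T.E none (some i)) ∧
        (∀ z : Fin 4 → Option (Fin k), P.S.R (fun j => (z j).elim p F) ↔ T.R z)
  | .tup a b => Function.Injective a → Function.Injective b →
      (∀ i j, P.S.E (a i) (a j) ↔ P.S.E (b i) (b j)) → (P.S.R a ↔ P.S.R b) →
      ∃ g : P.G, g • a = b

theorem Sat.map {P Q : Pair} (h : Hom P Q) {r : Req P.Ω} (hr : Sat P r) : Sat Q (r.map h.f) := by
  cases r with
  | ext k F T =>
    intro h1 h2 h3
    obtain ⟨p, h4, h5, h6⟩ := hr (fun i j hij => h1 (congrArg h.f hij))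
      (fun i j => (h2 i j).trans (h.E _ _)) (fun z => (h3 z).trans (h.R (F ∘ z)))
    refine ⟨h.f p, fun i hi => h4 i (h.inj hi), fun i => (h.E _ _).trans (h5 i), ?_⟩
    intro z
    rw [← h6 z, ← h.R]
    have : (fun j => (z j).elim (h.f p) (h.f ∘ F)) = h.f ∘ fun j => (z j).elim p F := by
      funext j
      rw [Function.comp_apply]
      cases z j <;> rfl
    rw [this]
  | tup a b =>
    intro h1 h2 h3 h4
    obtain ⟨g, hg⟩ := hr (fun i j hij => h1 (congrArg h.f hij))
      (fun i j hij => h2 (congrArg h.f hij))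
      (fun i j => ((h.E _ _).symm.trans (h3 i j)).trans (h.E _ _))
      (((h.R a).symm.trans h4).trans (h.R b))
    refine ⟨h.ρ g, ?_⟩
    funext i
    change h.ρ g • h.f (a i) = h.f (b i)
    rw [← h.equi, ← hg]
    rfl

/-- There are fully symmetric copies of all 4-point structures. -/
def HasFull (P : Pair) : Prop := ∀ T : Str (Fin 4), ∃ b : Fin 4 → P.Ω, Function.Injective b ∧
    (∀ i j, P.S.E (b i) (b j) ↔ T.E i j) ∧ (P.S.R b ↔ T.R id) ∧ Full P.G P.S b

theorem Full.map {P Q : Pair} (h : Hom P Q) {b : Fin 4 → P.Ω} (hb : Full P.G P.S b) :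
    Full Q.G Q.S (h.f ∘ b) := by
  intro π h1 h2
  obtain ⟨g, hg⟩ := hb π h1 (fun i j => ((h.E _ _).symm.trans (h2 i j)).trans (h.E _ _))
  refine ⟨h.ρ g, ?_⟩
  funext i
  change h.ρ g • h.f (b i) = h.f (b (π i))
  rw [← h.equi]
  exact congrArg h.f (congrFun hg i)

theorem HasFull.map {P Q : Pair} (h : Hom P Q) (hP : HasFull P) : HasFull Q := by
  intro T
  obtain ⟨b, h1, h2, h3, h4⟩ := hP T
  exact ⟨h.f ∘ b, h.inj.comp h1, fun i j => (h.E _ _).trans (h2 i j), (h.R b).trans h3, h4.map h⟩

/-- The structure induced on a tuple. -/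
def Str.comap {Ω A : Type} (S : Str Ω) (a : A → Ω) (ha : Function.Injective a) : Str A where
  E i j := S.E (a i) (a j)
  R z := S.R (a ∘ z)
  E_symm _ _ h := S.E_symm _ _ h
  E_irrefl _ h := S.E_irrefl _ h
  E_tri _ _ _ h1 h2 h3 := S.E_tri _ _ _ h1 h2 h3
  R_inj z h := fun _ _ hij => S.R_inj _ h (congrArg a hij)
  R_alt z σ hz := S.R_alt (a ∘ z) σ (ha.comp hz)

/-- Every requirement can be satisfied. -/
theorem solve (P : Pair) (hP : HasFull P) (r : Req P.Ω) :
    ∃ (Q : Pair) (h : Hom P Q), Sat Q (r.map h.f) := by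
  cases r with
  | ext k F T =>
    by_cases hF : Function.Injective F
    · by_cases hE : ∀ i j, T.E (some i) (some j) ↔ P.S.E (F i) (F j)
      · by_cases hR : ∀ z : Fin 4 → Fin k, T.R (some ∘ z) ↔ P.S.R (F ∘ z)
        · obtain ⟨Q, h, p, h1, h2, h3⟩ := ext_step P F hF T hE hR
          exact ⟨Q, h, fun _ _ _ => ⟨p, h1, h2, h3⟩⟩
        · exact ⟨P, Hom.id P, fun _ _ h => absurd h hR⟩
      · exact ⟨P, Hom.id P, fun _ h _ => absurd h hE⟩
    · exact ⟨P, Hom.id P, fun h _ _ => absurd h hF⟩
  | tup a b =>
    by_cases ha : Function.Injective a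
    · by_cases hb : Function.Injective b
      · by_cases hE : ∀ i j, P.S.E (a i) (a j) ↔ P.S.E (b i) (b j)
        · by_cases hR : P.S.R a ↔ P.S.R b
          · obtain ⟨c, hc, hcE, hcR, hcF⟩ := hP (P.S.comap a ha)
            obtain ⟨Q, h, g, hg⟩ := std P a c ha hc (fun i j => (hcE i j).symm) hcR.symm hcF
            obtain ⟨Q', h', g', hg'⟩ := std Q (h.f ∘ b) (h.f ∘ c) (h.inj.comp hb) (h.inj.comp hc)
              (fun i j => (h.E _ _).trans (((hE i j).symm.trans (hcE i j).symm).trans (h.E _ _).symm))
              ((h.R b).trans ((hR.symm.trans hcR.symm).trans (h.R c).symm)) (hcF.map h)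
            refine ⟨Q', h'.comp h, fun _ _ _ _ => ⟨g'⁻¹ * h'.ρ g, ?_⟩⟩
            rw [mul_smul, inv_smul_eq_iff]
            change _ = g' • (h'.f ∘ (h.f ∘ b))
            rw [hg', ← hg]
            funext i
            exact (h'.equi g _).symm
          · exact ⟨P, Hom.id P, fun _ _ _ h => absurd h hR⟩
        · exact ⟨P, Hom.id P, fun _ _ h _ => absurd h hE⟩
      · exact ⟨P, Hom.id P, fun _ h _ _ => absurd h hb⟩
    · exact ⟨P, Hom.id P, fun h _ _ _ => absurd h ha⟩

/-- Stages of the construction over a pair. -/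
structure Stage (P : Pair) where
  Q : Pair
  h : Hom P Q
  full : HasFull Q

/-- The next stage. -/
theorem next (P : Pair) (r : Req P.Ω) (s : Stage P) :
    ∃ (s' : Stage P) (k : Hom s.Q s'.Q), s'.h.f = k.f ∘ s.h.f ∧ Sat s'.Q (r.map s'.h.f) := by
  obtain ⟨Q, k, hk⟩ := solve s.Q s.full (r.map s.h.f)
  refine ⟨⟨Q, k.comp s.h, s.full.map k⟩, k, rfl, ?_⟩
  rw [Req.map_map] at hk
  exact hk

/-- All requirements over a pair can be satisfied. -/
theorem solve_all (P : Pair) (hP : HasFull P) :
    ∃ (Q : Pair) (h : Hom P Q), ∀ r : Req P.Ω, Sat Q (r.map h.f) := by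
  obtain ⟨x, hx⟩ := P.four
  have : Nonempty (Req P.Ω) := ⟨.tup x x⟩
  obtain ⟨e, he⟩ := exists_surjective_nat (Req P.Ω)
  choose nx k hk1 hk2 using next P
  let st : ℕ → Stage P := fun n => Nat.rec ⟨P, Hom.id P, hP⟩ (fun n s => nx (e n) s) n
  let Ps : ℕ → Pair := fun n => (st n).Q
  let hs : ∀ n, Hom (Ps n) (Ps (n + 1)) := fun n => k (e n) (st n)
  have hst : ∀ n, (st (n + 1)).h.f = (hs n).f ∘ (st n).h.f := fun n => hk1 (e n) (st n)
  have hsat : ∀ n, Sat (Ps (n + 1)) ((e n).map (st (n + 1)).h.f) := fun n => hk2 (e n) (st n)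
  have hcomp : ∀ n, (toLim Ps hs n).f ∘ (st n).h.f = (toLim Ps hs 0).f := by
    intro n
    induction n with
    | zero => rfl
    | succ n ih =>
      rw [← ih, hst]
      funext x
      have h1 := toLim_f Ps hs n (n + 1) (Nat.le_succ n) ((st n).h.f x)
      rw [homLE_succ Ps hs n n le_rfl, homLE_self] at h1
      exact h1
  refine ⟨lim Ps hs, toLim Ps hs 0, ?_⟩
  intro r
  obtain ⟨n, rfl⟩ := he r
  have h1 := (hsat n).map (toLim Ps hs (n + 1))
  rw [Req.map_map, hcomp] at h1
  exact h1

/-- There is a good pair satisfying all requirements. -/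
theorem saturated : ∃ P : Pair, ∀ r : Req P.Ω, Sat P r := by
  obtain ⟨P0, hP0⟩ := init
  have step : ∀ P : {P : Pair // HasFull P}, ∃ (Q : {P : Pair // HasFull P}) (h : Hom P.1 Q.1),
      ∀ r : Req P.1.Ω, Sat Q.1 (r.map h.f) := by
    intro P
    obtain ⟨Q, h, hQ⟩ := solve_all P.1 P.2
    exact ⟨⟨Q, P.2.map h⟩, h, hQ⟩
  choose nx k hk using step
  let st : ℕ → {P : Pair // HasFull P} := fun n => Nat.rec ⟨P0, hP0⟩ (fun _ s => nx s) n
  let Ps : ℕ → Pair := fun n => (st n).1
  let hs : ∀ n, Hom (Ps n) (Ps (n + 1)) := fun n => k (st n)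
  have hsat : ∀ n (r : Req (Ps n).Ω), Sat (Ps (n + 1)) (r.map (hs n).f) := fun n => hk (st n)
  have hfinal : ∀ n (r : Req (Ps n).Ω), Sat (lim Ps hs) (r.map (toLim Ps hs n).f) := by
    intro n r
    have h1 := (hsat n r).map (toLim Ps hs (n + 1))
    rw [Req.map_map] at h1
    have h2 : (toLim Ps hs (n + 1)).f ∘ (hs n).f = (toLim Ps hs n).f := by
      funext x
      have h3 := toLim_f Ps hs n (n + 1) (Nat.le_succ n) x
      rw [homLE_succ Ps hs n n le_rfl, homLE_self] at h3
      exact h3
    rw [h2] at h1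
    exact h1
  refine ⟨lim Ps hs, ?_⟩
  intro r
  cases r with
  | ext k F T =>
    obtain ⟨N, hN⟩ := exists_inc_tuple Ps hs F
    obtain ⟨y, rfl⟩ := hN N le_rfl
    exact hfinal N (.ext k y T)
  | tup a b =>
    obtain ⟨N, hN⟩ := exists_inc_tuple Ps hs a
    obtain ⟨M, hM⟩ := exists_inc_tuple Ps hs b
    obtain ⟨y, rfl⟩ := hN (max N M) (le_max_left _ _)
    obtain ⟨z, rfl⟩ := hM (max N M) (le_max_right _ _)
    exact hfinal (max N M) (.tup y z)

end Pool.Agent.Lib.MP_0dd7b8_al

/-!
# The limit pair is the Fraïssé limit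
-/

set_option autoImplicit false
set_option linter.unusedSectionVars false

namespace Pool.Agent.Lib.MP_0dd7b8_al

open FirstOrder CategoryTheory Equiv

/-- Extending a partial isomorphism into a saturated pair by one point. -/
theorem extend_point {P : Pair} (hP : ∀ r : Req P.Ω, Sat P r) {M : Type} (SM : Str M) {k : ℕ}
    (e : Fin k → M) (he : Function.Injective e) (m : M) (hm : ∀ i, m ≠ e i) (F : Fin k → P.Ω)
    (hF : Function.Injective F) (hFE : ∀ i j, P.S.E (F i) (F j) ↔ SM.E (e i) (e j))
    (hFR : ∀ z : Fin 4 → Fin k, P.S.R (F ∘ z) ↔ SM.R (e ∘ z)) :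
    ∃ p : P.Ω, Function.Injective (fun o : Option (Fin k) => o.elim p F) ∧
      (∀ o o' : Option (Fin k), P.S.E (o.elim p F) (o'.elim p F) ↔
        SM.E (o.elim m e) (o'.elim m e)) ∧
      (∀ z : Fin 4 → Option (Fin k), P.S.R (fun j => (z j).elim p F) ↔
        SM.R (fun j => (z j).elim m e)) := by
  have hinj : Function.Injective (fun o : Option (Fin k) => o.elim m e) := by
    intro o o' h
    cases o <;> cases o' <;> simp at h ⊢
    · exact hm _ h
    · exact hm _ h.symm
    · exact he h
  obtain ⟨p, h1, h2, h3⟩ := hP (.ext k F (SM.comap _ hinj)) hF (fun i j => (hFE i j).symm)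
    (fun z => (hFR z).symm)
  refine ⟨p, ?_, ?_, h3⟩
  · intro o o' h
    cases o <;> cases o' <;> simp at h ⊢
    · exact h1 _ h
    · exact h1 _ h.symm
    · exact hF h
  · intro o o'
    cases o with
    | none =>
      cases o' with
      | none => exact ⟨fun h => absurd h (P.S.E_irrefl _), fun h => absurd h (SM.E_irrefl _)⟩
      | some j => exact h2 j
    | some i =>
      cases o' with
      | none =>
        exact ⟨fun h => SM.E_symm _ _ ((h2 i).mp (P.S.E_symm _ _ h)),
          fun h => P.S.E_symm _ _ ((h2 i).mpr (SM.E_symm _ _ h))⟩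
      | some j => exact hFE i j

/-- The first-order structure of a `Str`. -/
@[reducible] def Str.toStructure {Ω : Type} (S : Str Ω) : lang.Structure Ω where
  funMap := fun f => f.elim
  RelMap := fun {n} (r : Sym n) (x : Fin n → Ω) =>
    (match n, r, x with
    | _, .edge, x => S.E (x 0) (x 1)
    | _, .tour, x => S.R x : Prop)

theorem relMap_edge {M : Type} [lang.Structure M] (x : Fin 2 → M) :
    Language.Structure.RelMap (L := lang) Sym.edge x ↔ Edge (x 0) (x 1) := by
  have : x = ![x 0, x 1] := by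
    funext i
    fin_cases i <;> rfl
  rw [Edge]
  conv_lhs => rw [this]

/-- The `Str` of a first-order structure. -/
def Str.ofStructure (M : Type) [lang.Structure M] (h1 : IsTriangleFreeGraph M)
    (h2 : IsFourTournament M) : Str M where
  E := Edge
  R := Tour
  E_symm := h1.1
  E_irrefl := h1.2.1
  E_tri := h1.2.2
  R_inj := h2.1
  R_alt := by
    intro x σ hx
    have key : ∀ y : Fin 4 → M, Function.Injective y → ∀ τ : Perm (Fin 4), Perm.sign τ = 1 →
        (Tour (y ∘ τ) ↔ Tour y) := by
      intro y hy τ hτ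
      have := (h2.2 y hy τ).mpr (Equiv.Perm.mem_alternatingGroup.mpr hτ) id
      simpa using this
    by_cases hσ : Perm.sign σ = 1
    · rw [key x hx σ hσ]
      simp [hσ]
    · have hiff : ¬ (Tour (x ∘ σ) ↔ Tour x) := by
        intro h
        apply hσ
        rw [← Equiv.Perm.mem_alternatingGroup, ← h2.2 x hx σ]
        -- `R` is constant on the orderings of the four points
        have hall : ∀ τ : Perm (Fin 4), Tour (x ∘ τ) ↔ Tour x := by
          intro τ
          by_cases hτ : Perm.sign τ = 1
          · exact key x hx τ hτ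
          · have h3 : Perm.sign (σ⁻¹ * τ) = 1 := by
              rw [Perm.sign_mul, Perm.sign_inv]
              rcases Int.units_eq_one_or (Perm.sign σ) with h4 | h4
              · exact absurd h4 hσ
              · rcases Int.units_eq_one_or (Perm.sign τ) with h5 | h5
                · exact absurd h5 hτ
                · rw [h4, h5]
                  decide
            have h4 := key (x ∘ σ) (hx.comp σ.injective) (σ⁻¹ * τ) h3
            have h5 : (x ∘ σ) ∘ (σ⁻¹ * τ : Perm (Fin 4)) = x ∘ τ := by
              funext i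
              have : σ (σ⁻¹ (τ i)) = τ i := σ.apply_symm_apply _
              exact congrArg x this
            rw [h5] at h4
            exact h4.trans h
        intro w
        by_cases hw : Function.Injective w
        · let w' : Perm (Fin 4) := Equiv.ofBijective w (Finite.injective_iff_bijective.mp hw)
          have e1 := hall w'
          have e2 := hall (σ * w')
          exact e2.trans e1.symm
        · constructor
          · intro h'
            exact absurd (Function.Injective.of_comp (Function.Injective.of_comp (h2.1 _ h'))) hw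
          · intro h'
            exact absurd (Function.Injective.of_comp (h2.1 _ h')) hw
      simp only [hσ, iff_false]
      tauto

theorem Str.isTriangleFree {Ω : Type} (S : Str Ω) :
    @IsTriangleFreeGraph Ω S.toStructure :=
  ⟨S.E_symm, S.E_irrefl, S.E_tri⟩

theorem Str.isFourTournament {Ω : Type} (S : Str Ω) :
    @IsFourTournament Ω S.toStructure := by
  refine ⟨S.R_inj, ?_⟩
  intro x hx σ
  rw [Equiv.Perm.mem_alternatingGroup]
  change (∀ w : Fin 4 → Fin 4, S.R (x ∘ σ ∘ w) ↔ S.R (x ∘ w)) ↔ _
  constructor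
  · intro h
    have h1 := h id
    have h2 := S.R_alt x σ hx
    change S.R (x ∘ σ) ↔ S.R x at h1
    tauto
  · intro hσ w
    by_cases hw : Function.Injective w
    · let w' : Perm (Fin 4) := Equiv.ofBijective w (Finite.injective_iff_bijective.mp hw)
      have e1 := S.R_alt x w' hx
      have e2 := S.R_alt x (σ * w') hx
      rw [Perm.sign_mul, hσ, one_mul] at e2
      exact e2.trans e1.symm
    · constructor
      · intro h'
        exact absurd (Function.Injective.of_comp (Function.Injective.of_comp (S.R_inj _ h'))) hw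
      · intro h'
        exact absurd (Function.Injective.of_comp (S.R_inj _ h')) hw

section limit

open FirstOrder.Language

variable {P : Pair} (hP : ∀ r : Req P.Ω, Sat P r)

include hP

/-- Extension property of the saturated pair. -/
theorem ext_pair (M : Type) [lang.Structure M] (h1 : IsTriangleFreeGraph M)
    (h2 : IsFourTournament M) : @IsExtensionPair lang M P.Ω _ P.S.toStructure := by
  letI := P.S.toStructure
  rw [isExtensionPair_iff_exists_embedding_closure_singleton_sup]
  intro S hS f m
  by_cases hm : m ∈ S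
  · have hle : (Substructure.closure lang {m} ⊔ S : lang.Substructure M) ≤ S := by
      apply sup_le _ le_rfl
      rw [Substructure.closure_le]
      simpa using hm
    refine ⟨f.comp (Substructure.inclusion hle), ?_⟩
    ext x
    rfl
  · have hfin : Finite S := Substructure.fg_iff_finite.mp hS
    obtain ⟨k, ⟨e0⟩⟩ := Finite.exists_equiv_fin S
    let e : Fin k → M := fun i => (e0.symm i).1
    let F : Fin k → P.Ω := fun i => f (e0.symm i)
    have he : Function.Injective e := Subtype.val_injective.comp e0.symm.injective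
    have hF : Function.Injective F := f.injective.comp e0.symm.injective
    have hme : ∀ i, m ≠ e i := by
      intro i hi
      apply hm
      rw [hi]
      exact (e0.symm i).2
    have hFE : ∀ i j, P.S.E (F i) (F j) ↔ (Str.ofStructure M h1 h2).E (e i) (e j) := by
      intro i j
      have h3 := f.map_rel (L := lang) (r := Sym.edge) ![e0.symm i, e0.symm j]
      have h4 : (Subtype.val ∘ ![e0.symm i, e0.symm j] : Fin 2 → M) = ![e i, e j] := by
        funext l
        fin_cases l <;> rfl
      have h5 : Structure.RelMap (L := lang) Sym.edge ![e0.symm i, e0.symm j] ↔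
          Edge (e i) (e j) := by
        rw [Edge, ← h4]
        rfl
      rw [h5] at h3
      exact h3
    have hFR : ∀ z : Fin 4 → Fin k, P.S.R (F ∘ z) ↔ (Str.ofStructure M h1 h2).R (e ∘ z) := by
      intro z
      exact f.map_rel (L := lang) (r := Sym.tour) (e0.symm ∘ z)
    obtain ⟨p, hp1, hp2, hp3⟩ := extend_point hP (Str.ofStructure M h1 h2) e he m hme F hF hFE hFR
    have hmem : ∀ x : (Substructure.closure lang {m} ⊔ S : lang.Substructure M),
        x.1 = m ∨ x.1 ∈ S := by
      intro x
      have hle : (Substructure.closure lang {m} ⊔ S : lang.Substructure M) ≤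
          Substructure.closure lang ({m} ∪ (S : Set M)) := by
        apply sup_le
        · exact Substructure.closure_mono Set.subset_union_left
        · intro y hy
          exact Substructure.subset_closure (Or.inr hy)
      have h3 := hle x.2
      rw [Substructure.mem_closure_iff_of_isRelational] at h3
      exact h3
    classical
    let g : (Substructure.closure lang {m} ⊔ S : lang.Substructure M) → P.Ω :=
      fun x => if h : x.1 ∈ S then f ⟨x.1, h⟩ else p
    have hg : ∀ x, ∃ o : Option (Fin k), x.1 = o.elim m e ∧ g x = o.elim p F := by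
      intro x
      by_cases hx : x.1 ∈ S
      · refine ⟨some (e0 ⟨x.1, hx⟩), ?_, ?_⟩
        · simp [e]
        · simp [g, hx, F]
      · refine ⟨none, ?_, ?_⟩
        · rcases hmem x with h3 | h3
          · exact h3
          · exact absurd h3 hx
        · simp [g, hx]
    choose o ho1 ho2 using hg
    have hginj : Function.Injective g := by
      intro x y hxy
      rw [ho2, ho2] at hxy
      have := hp1 hxy
      apply Subtype.ext
      rw [ho1, ho1, this]
    refine ⟨⟨⟨g, hginj⟩, ?_, ?_⟩, ?_⟩
    · intro n fn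
      exact fn.elim
    · intro n r x
      cases r with
      | edge =>
        change P.S.E (g (x 0)) (g (x 1)) ↔ _
        rw [ho2, ho2, hp2, ← ho1, ← ho1]
        change Edge (x 0).1 (x 1).1 ↔ _
        exact (relMap_edge (Subtype.val ∘ x)).symm
      | tour =>
        change P.S.R (g ∘ x) ↔ _
        have h3 : g ∘ x = fun j => (o (x j)).elim p F := funext fun j => ho2 _
        rw [h3, hp3]
        have h4 : (fun j => (o (x j)).elim m e) = Subtype.val ∘ x := funext fun j => (ho1 _).symm
        rw [h4]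
        exact Iff.rfl
    · ext x
      change f x = g _
      have hx : (Substructure.inclusion (le_sup_right :
          S ≤ (Substructure.closure lang {m} ⊔ S : lang.Substructure M)) x).1 ∈ S := x.2
      simp only [g, hx, dite_true]
      rfl

instance : IsEmpty lang.Constants := (inferInstance : IsEmpty Empty)
instance : IsEmpty (lang.Relations 0) := ⟨fun r => by cases r⟩

/-- The saturated pair is a Fraïssé limit. -/
theorem isLimit : @IsFraisseLimit lang mixClass P.Ω P.S.toStructure _ _ := by
  letI := P.S.toStructure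
  refine @IsFraisseLimit.mk lang mixClass P.Ω P.S.toStructure _ _ ?_ ?_
  · rw [isUltrahomogeneous_iff_IsExtensionPair Structure.cg_of_countable]
    exact ext_pair hP P.Ω P.S.isTriangleFree P.S.isFourTournament
  · ext N
    constructor
    · rintro ⟨hN1, ⟨f⟩⟩
      have hfin : Finite N := Structure.fg_iff_finite.mp hN1
      have hE : ∀ x y : N, Edge x y ↔ P.S.E (f x) (f y) := by
        intro x y
        have h3 := f.map_rel (L := lang) (r := Sym.edge) ![x, y]
        exact h3.symm
      have hR : ∀ x : Fin 4 → N, Tour x ↔ P.S.R (f ∘ x) := by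
        intro x
        exact (f.map_rel (L := lang) (r := Sym.tour) x).symm
      refine ⟨hfin, ⟨?_, ?_, ?_⟩, ?_, ?_⟩
      · intro x y h
        rw [hE] at h ⊢
        exact P.S.E_symm _ _ h
      · intro x h
        rw [hE] at h
        exact P.S.E_irrefl _ h
      · intro x y z h h' h''
        rw [hE] at h h' h''
        exact P.S.E_tri _ _ _ h h' h''
      · intro x h
        rw [hR] at h
        exact Function.Injective.of_comp (P.S.R_inj _ h)
      · intro x hx σ
        rw [← P.S.isFourTournament.2 (f ∘ x) (f.injective.comp hx) σ]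
        apply forall_congr'
        intro w
        rw [hR, hR]
        exact Iff.rfl
    · rintro ⟨hfin, h1, h2⟩
      refine ⟨Structure.fg_iff_finite.mpr hfin, ?_⟩
      have hc : Structure.CG lang N := by
        have : Countable N := Finite.to_countable
        exact Structure.cg_of_countable
      obtain ⟨f, -⟩ := embedding_from_cg hc default (ext_pair hP N h1 h2)
      exact ⟨f⟩

end limit

end Pool.Agent.Lib.MP_0dd7b8_al

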