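import Pool.Agent.Lib.MP_0dd7b8_al.Tree

/-!
# An initial pair, with a fully symmetric copy of every 4-point structure
-/

set_option autoImplicit false
set_option linter.unusedSectionVars false

namespace Pool.Agent.Lib.MP_0dd7b8_al

open Equiv

namespace Init

/-- The points. -/
abbrev I0 : Type := Fin 4 ⊕ (Σ _ : Fin 5, Perm (Fin 4))

/-- The double transpositions and a 3-cycle. -/
def v1 : Perm (Fin 4) := swap 0 1 * swap 2 3
def v2 : Perm (Fin 4) := swap 0 2 * swap 1 3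
def v3 : Perm (Fin 4) := swap 0 3 * swap 1 2
def cc : Perm (Fin 4) := swap 1 2 * swap 2 3

/-- The edges between free orbits. -/
def L0 (i j : Fin 5) (s : Perm (Fin 4)) : Bool :=
  (i == 1 && j == 1 && s == v1) || (i == 2 && j == 2 && (s == v1 || s == v2)) ||
  (i == 1 && j == 3 && s == 1) || (i == 3 && j == 1 && s == 1) ||
  (i == 1 && j == 4 && s == 1) || (i == 4 && j == 1 && s == 1)

/-- The graph. -/
def E0 : I0 → I0 → Bool
  | .inl _, .inl _ => false
  | .inl p, .inr ⟨i, g⟩ => i == 0 && g 0 == p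
  | .inr ⟨i, g⟩, .inl p => i == 0 && g 0 == p
  | .inr ⟨i, g⟩, .inr ⟨j, h⟩ => L0 i j (g⁻¹ * h)

/-- The models of the 4-point structures. -/
def b0 : Fin 8 → Fin 4 → I0 :=
  ![![.inl 0, .inl 1, .inl 2, .inl 3],
    ![.inl 0, .inr ⟨0, 1⟩, .inr ⟨0, cc⟩, .inr ⟨0, cc * cc⟩],
    ![.inr ⟨1, 1⟩, .inr ⟨1, v1⟩, .inr ⟨0, 1⟩, .inr ⟨0, v1⟩],
    ![.inr ⟨1, 1⟩, .inr ⟨1, v1⟩, .inr ⟨1, v2⟩, .inr ⟨1, v3⟩],
    ![.inr ⟨2, 1⟩, .inr ⟨2, v1⟩, .inr ⟨2, v2⟩, .inr ⟨2, v3⟩],
    ![.inr ⟨2, 1⟩, .inr ⟨2, v1⟩, .inr ⟨2, v2⟩, .inr ⟨0, 1⟩],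
    ![.inr ⟨1, 1⟩, .inr ⟨1, v1⟩, .inr ⟨3, 1⟩, .inr ⟨3, v1⟩],
    ![.inr ⟨1, 1⟩, .inr ⟨1, v1⟩, .inr ⟨4, 1⟩, .inr ⟨4, v1⟩]]

set_option maxRecDepth 100000

theorem L0_symm : ∀ (i j : Fin 5) (s : Perm (Fin 4)), L0 i j s = true → L0 j i s⁻¹ = true := by
  decide +kernel

theorem L0_irrefl : ∀ (i : Fin 5), L0 i i 1 = false := by decide +kernel

theorem L0_zero : ∀ (i : Fin 5) (s : Perm (Fin 4)), L0 0 i s = false := by decide +kernel

theorem L0_tri : ∀ (i j k : Fin 5) (s : Perm (Fin 4)), L0 i j s = true →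
    ∀ s' : Perm (Fin 4), L0 j k s' = true → L0 i k (s * s') = false := by
  decide +kernel

theorem b0_inj : ∀ (m : Fin 8) (i j : Fin 4), b0 m i = b0 m j → i = j := by decide +kernel

/-- The action on points. -/
def actP (π : Perm (Fin 4)) : I0 → I0
  | .inl i => .inl (π i)
  | .inr ⟨i, g⟩ => .inr ⟨i, π * g⟩

theorem smul_eq (π : Perm (Fin 4)) (x : I0) : π • x = actP π x := by
  rcases x with i | ⟨i, g⟩ <;> rfl

/-- Equality of points, as a Boolean. -/
def eqP : I0 → I0 → Bool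
  | .inl i, .inl j => i == j
  | .inr ⟨i, g⟩, .inr ⟨j, h⟩ => i == j && g == h
  | _, _ => false

theorem eq_of_eqP (x y : I0) (h : eqP x y = true) : x = y := by
  rcases x with i | ⟨i, g⟩ <;> rcases y with j | ⟨j, k⟩ <;> simp [eqP] at h ⊢
  · exact h
  · exact h

theorem b0_full : ∀ (m : Fin 8) (π : Perm (Fin 4)), (Perm.sign π = 1 ∧
    ∀ i j, E0 (b0 m (π i)) (b0 m (π j)) = E0 (b0 m i) (b0 m j)) →
    ∀ i, eqP (actP π (b0 m i)) (b0 m (π i)) = true := by
  decide +kernel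

/-- The graph on `Fin 4` with given edges. -/
def mat (a b c d e f : Bool) : Fin 4 → Fin 4 → Bool :=
  ![![false, a, b, c], ![a, false, d, e], ![b, d, false, f], ![c, e, f, false]]

theorem classify : ∀ a b c d e f : Bool, (a && d && b) = false → (a && e && c) = false →
    (b && f && c) = false → (d && f && e) = false →
    ∃ (m : Fin 8) (σ : Perm (Fin 4)), ∀ i j, mat a b c d e f i j = E0 (b0 m (σ i)) (b0 m (σ j)) := by
  decide +kernel

theorem odd_aut : ∀ m : Fin 8, (∃ τ : Perm (Fin 4), Perm.sign τ ≠ 1 ∧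
    ∀ i j, E0 (b0 m (τ i)) (b0 m (τ j)) = E0 (b0 m i) (b0 m j)) ∨ m = 6 ∨ m = 7 := by
  decide +kernel

theorem six_seven : ∀ i j, E0 (b0 6 i) (b0 6 j) = E0 (b0 7 i) (b0 7 j) := by decide +kernel

/-! ### The pair -/

theorem E0_smul (g : Perm (Fin 4)) (x y : I0) : E0 (g • x) (g • y) = E0 x y := by
  rw [smul_eq, smul_eq]
  rcases x with p | ⟨i, a⟩ <;> rcases y with q | ⟨j, b⟩
  · rfl
  · rw [Bool.eq_iff_iff]
    simp [actP, E0]
  · rw [Bool.eq_iff_iff]
    simp [actP, E0]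
  · simp only [actP, E0]
    congr 1
    group

theorem E0_symm (x y : I0) (h : E0 x y = true) : E0 y x = true := by
  rcases x with p | ⟨i, a⟩ <;> rcases y with q | ⟨j, b⟩
  · exact h
  · exact h
  · exact h
  · simp only [E0] at h ⊢
    have := L0_symm _ _ _ h
    rwa [mul_inv_rev, inv_inv] at this

theorem E0_irrefl (x : I0) : ¬ E0 x x = true := by
  rcases x with p | ⟨i, a⟩
  · simp [E0]
  · simp [E0, L0_irrefl]

theorem E0_tri (x y z : I0) (h1 : E0 x y = true) (h2 : E0 y z = true) (h3 : E0 x z = true) :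
    False := by
  rcases x with p | ⟨i, a⟩ <;> rcases y with q | ⟨j, b⟩ <;> rcases z with r | ⟨k, c⟩
  · simp [E0] at h1
  · simp [E0] at h1
  · simp [E0] at h3
  · simp only [E0, Bool.and_eq_true, beq_iff_eq] at h1 h2
    rw [h1.1, L0_zero] at h2
    cases h2
  · simp [E0] at h2
  · simp only [E0, Bool.and_eq_true, beq_iff_eq] at h1 h3
    rw [h1.1, L0_zero] at h3
    cases h3
  · simp only [E0, Bool.and_eq_true, beq_iff_eq] at h1 h3
    rw [h3.1, L0_zero] at h1
    cases h1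
  · simp only [E0] at h1 h2 h3
    have := L0_tri _ _ _ _ h1 _ h2
    have e : a⁻¹ * b * (b⁻¹ * c) = a⁻¹ * c := by group
    rw [e, h3] at this
    cases this

/-- The group. -/
abbrev G0 : Type := alternatingGroup (Fin 4)

theorem sharp0 (g : G0) (x : Fin 4 → I0) (hx : Function.Injective x) (h : g • x = x) : g = 1 := by
  by_cases hr : ∃ i j a, x i = .inr ⟨j, a⟩
  · obtain ⟨i, j, a, hi⟩ := hr
    have h1 := congrFun h i
    rw [Pi.smul_apply, hi] at h1
    have h2 : (Sum.inr ⟨j, g.1 * a⟩ : I0) = Sum.inr ⟨j, a⟩ := h1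
    have h3 := Sum.inr.inj h2
    simp only [Sigma.mk.injEq, heq_eq_eq, true_and] at h3
    apply Subtype.ext
    simpa using h3
  · have : ∀ i, ∃ y, x i = .inl y := by
      intro i
      rcases hxi : x i with y | ⟨j, a⟩
      · exact ⟨y, rfl⟩
      · exact absurd ⟨i, j, a, hxi⟩ hr
    choose y hy using this
    have hyi : Function.Injective y := by
      intro i j hij
      apply hx
      rw [hy, hy, hij]
    have hys := Finite.surjective_of_injective hyi
    apply Subtype.ext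
    ext i
    obtain ⟨j, rfl⟩ := hys i
    have h1 := congrFun h j
    rw [Pi.smul_apply, hy] at h1
    have h2 : g.1 (y j) = y j := Sum.inl.inj h1
    rw [h2]
    rfl

theorem fix0 {g : G0} (hg : g ≠ 1) {x : I0} (h : g • x = x) : ∃ i, x = .inl i ∧ g.1 i = i := by
  rcases x with i | ⟨j, a⟩
  · exact ⟨i, rfl, Sum.inl.inj h⟩
  · exfalso
    have h2 : (Sum.inr ⟨j, g.1 * a⟩ : I0) = Sum.inr ⟨j, a⟩ := h
    have h3 := Sum.inr.inj h2
    simp only [Sigma.mk.injEq, heq_eq_eq, true_and] at h3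
    apply hg
    apply Subtype.ext
    simpa using h3

theorem ne_one {g : G0} (hg : g ≠ 1) : g.1 ≠ 1 := fun h => hg (Subtype.ext h)

theorem sgn (g : G0) : Perm.sign g.1 = 1 := Equiv.Perm.mem_alternatingGroup.mp g.2

theorem invol0 (g : G0) (x : I0) (h1 : g ≠ 1) (h2 : g ^ 2 = 1) : g • x ≠ x := by
  intro h
  obtain ⟨i, -, hi⟩ := fix0 h1 h
  exact even_invol g.1 (sgn g) (ne_one h1) (congrArg Subtype.val h2) i hi

theorem three0 (g : G0) (x y : I0) (h1 : g ≠ 1) (h3 : g ^ 3 = 1) (hx : g • x = x)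
    (hy : g • y = y) : x = y := by
  obtain ⟨i, rfl, hi⟩ := fix0 h1 hx
  obtain ⟨j, rfl, hj⟩ := fix0 h1 hy
  rw [even_three g.1 (ne_one h1) (congrArg Subtype.val h3) i j hi hj]

theorem noFour0 (g : G0) (h : g ^ 4 = 1) : g ^ 2 = 1 :=
  Subtype.ext (even_four g.1 (sgn g) (congrArg Subtype.val h))

theorem b0_injective (m : Fin 8) : Function.Injective (b0 m) := fun i j h => b0_inj m i j h

theorem orb67 (g : G0) (σ : Perm (Fin 4)) : b0 7 ≠ (g • b0 6) ∘ σ := by
  intro h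
  have h1 := congrFun h 2
  have h2 : ∀ i, (∃ a, b0 6 i = .inr ⟨1, a⟩) ∨ (∃ a, b0 6 i = .inr ⟨3, a⟩) := by
    intro i
    fin_cases i
    · exact Or.inl ⟨_, rfl⟩
    · exact Or.inl ⟨_, rfl⟩
    · exact Or.inr ⟨_, rfl⟩
    · exact Or.inr ⟨_, rfl⟩
  rcases h2 (σ 2) with ⟨a, ha⟩ | ⟨a, ha⟩
  · rw [Function.comp_apply, Pi.smul_apply, ha] at h1
    have h3 : (Sum.inr ⟨4, 1⟩ : I0) = Sum.inr ⟨1, g.1 * a⟩ := h1
    have h4 := Sum.inr.inj h3
    simp only [Sigma.mk.injEq] at h4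
    exact absurd h4.1 (by decide)
  · rw [Function.comp_apply, Pi.smul_apply, ha] at h1
    have h3 : (Sum.inr ⟨4, 1⟩ : I0) = Sum.inr ⟨3, g.1 * a⟩ := h1
    have h4 := Sum.inr.inj h3
    simp only [Sigma.mk.injEq] at h4
    exact absurd h4.1 (by decide)

theorem orb76 (g : G0) (σ : Perm (Fin 4)) : b0 6 ≠ (g • b0 7) ∘ σ := by
  intro h
  apply orb67 g⁻¹ σ⁻¹
  rw [h]
  funext i
  have : σ (σ⁻¹ i) = i := σ.apply_symm_apply i
  simp

theorem exists_R : ∃ R : (Fin 4 → I0) → Prop, (∀ x, R x → Function.Injective x) ∧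
      (∀ (x : Fin 4 → I0) (σ : Perm (Fin 4)), Function.Injective x →
        (R (x ∘ σ) ↔ (R x ↔ Perm.sign σ = 1))) ∧
      (∀ (g : G0) (x : Fin 4 → I0), R (g • x) ↔ R x) ∧ R (b0 6) ∧ ¬ R (b0 7) := by
  have even : ∀ (x : Fin 4 → I0) (g : G0) (σ : Perm (Fin 4)), Function.Injective x →
      g • x = x ∘ σ → Perm.sign σ = 1 :=
    fun x g σ hx h => even_of_stab sharp0 invol0 noFour0 hx h
  have even' : ∀ (x : Fin 4 → I0) (g : G0) (σ : Perm (Fin 4)), Function.Injective x →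
      x = (g • x) ∘ σ → Perm.sign σ = 1 := by
    intro x g σ hx h
    have h1 : g • x = x ∘ (σ⁻¹ : Perm (Fin 4)) := by
      conv_rhs => rw [h]
      funext i
      have : σ (σ⁻¹ i) = i := σ.apply_symm_apply i
      simp
    have h2 := even x g σ⁻¹ hx h1
    rwa [Perm.sign_inv] at h2
  have h67 : b0 7 ≠ b0 6 := by
    intro h
    apply orb67 1 1
    rw [one_smul, h]
    rfl
  obtain ⟨R, h1, h2, h3, h4⟩ := exists_orientation (Γ := G0) (Z := I0) {b0 6, b0 7}
    (fun x => x = b0 6)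
    (by
      rintro x (rfl | rfl)
      · exact b0_injective 6
      · exact b0_injective 7)
    (by
      rintro x (rfl | rfl) y (rfl | rfl) g σ h
      · simpa using even' _ _ _ (b0_injective 6) h
      · exact absurd h (orb67 g σ)
      · exact absurd h (orb76 g σ)
      · have := even' _ _ _ (b0_injective 7) h
        simp [h67, this])
    even
  refine ⟨R, h1, h2, h3, ?_, ?_⟩
  · rw [h4 _ (Or.inl rfl)]
  · rw [h4 _ (Or.inr rfl)]
    exact h67

end Init

open Init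

/-- The initial pair. -/
theorem init : ∃ P : Pair, ∀ T : Str (Fin 4), ∃ b : Fin 4 → P.Ω, Function.Injective b ∧
    (∀ i j, P.S.E (b i) (b j) ↔ T.E i j) ∧ (P.S.R b ↔ T.R id) ∧ Full P.G P.S b := by
  classical
  obtain ⟨R, R1, R2, R3, R6, R7⟩ := exists_R
  let P : Pair := {
    Ω := I0
    G := G0
    S := { E := fun x y => E0 x y = true, R := R, E_symm := E0_symm, E_irrefl := E0_irrefl,
           E_tri := E0_tri, R_inj := R1, R_alt := R2 }
    good := {
      mapE := fun g x y => by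
        have := E0_smul g.1 x y
        change E0 (g.1 • x) (g.1 • y) = true ↔ _
        rw [this]
      mapR := R3
      sharp := sharp0
      invol := invol0
      three := three0
      noFour := noFour0 }
    cnt := inferInstance
    four := ⟨b0 0, b0_injective 0⟩ }
  refine ⟨P, ?_⟩
  intro T
  have hfull : ∀ (m : Fin 8) (σ : Perm (Fin 4)), Full P.G P.S (b0 m ∘ σ) := by
    intro m σ π hπ hE
    have h1 : Perm.sign (σ * π * σ⁻¹) = 1 := by
      simp [hπ]
    have h2 : ∀ i, σ⁻¹ (σ i) = i := σ.symm_apply_apply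
    have h3 : ∀ i j, E0 (b0 m ((σ * π * σ⁻¹) i)) (b0 m ((σ * π * σ⁻¹) j)) =
        E0 (b0 m i) (b0 m j) := by
      intro i j
      have h4 := hE (σ⁻¹ i) (σ⁻¹ j)
      have h5 : ∀ i, σ (σ⁻¹ i) = i := σ.apply_symm_apply
      simp only [Function.comp_apply, h5] at h4
      rw [Bool.eq_iff_iff]
      exact h4
    have h4 := b0_full m (σ * π * σ⁻¹) ⟨h1, h3⟩
    refine ⟨⟨σ * π * σ⁻¹, Equiv.Perm.mem_alternatingGroup.mpr h1⟩, ?_⟩
    funext i
    have h5 := eq_of_eqP _ _ (h4 (σ i))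
    rw [← smul_eq] at h5
    have h6 : (σ * π * σ⁻¹) (σ i) = σ (π i) := by
      change σ (π (σ⁻¹ (σ i))) = _
      rw [h2]
    rw [h6] at h5
    exact h5
  -- the graph of `T`
  let e : Fin 4 → Fin 4 → Bool := fun i j => decide (T.E i j)
  have hsym : ∀ i j, e i j = e j i := by
    intro i j
    simp only [e, decide_eq_decide]
    exact ⟨T.E_symm i j, T.E_symm j i⟩
  have hirr : ∀ i, e i i = false := by
    intro i
    simp [e, T.E_irrefl]
  have htri : ∀ i j k, (e i j && e j k && e i k) = false := by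
    intro i j k
    rw [Bool.eq_false_iff]
    intro h
    simp only [Bool.and_eq_true, e, decide_eq_true_eq] at h
    exact T.E_tri i j k h.1.1 h.1.2 h.2
  have hmat : ∀ i j, e i j = mat (e 0 1) (e 0 2) (e 0 3) (e 1 2) (e 1 3) (e 2 3) i j := by
    intro i j
    fin_cases i <;> fin_cases j <;> simp [mat, hirr] <;> exact hsym _ _
  obtain ⟨m, σ, hmσ⟩ := classify (e 0 1) (e 0 2) (e 0 3) (e 1 2) (e 1 3) (e 2 3)
    (htri 0 1 2) (htri 0 1 3) (htri 0 2 3) (htri 1 2 3)
  have hmT : ∀ i j, E0 (b0 m (σ i)) (b0 m (σ j)) = true ↔ T.E i j := by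
    intro i j
    rw [← hmσ, ← hmat]
    simp [e]
  have hinj : ∀ (m : Fin 8) (σ : Perm (Fin 4)), Function.Injective (b0 m ∘ σ) :=
    fun m σ => (b0_injective m).comp σ.injective
  by_cases hR : R (b0 m ∘ σ) ↔ T.R id
  · exact ⟨b0 m ∘ σ, hinj m σ, hmT, hR, hfull m σ⟩
  · rcases odd_aut m with ⟨τ, hτ, hτE⟩ | h67
    · refine ⟨b0 m ∘ (τ * σ : Perm (Fin 4)), hinj m _, ?_, ?_, hfull m _⟩
      · intro i j
        rw [← hmT i j, ← hτE]
        rfl
      · change R (b0 m ∘ (τ * σ : Perm (Fin 4))) ↔ _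
        rw [R2 _ _ (b0_injective m)] at hR ⊢
        rw [Perm.sign_mul]
        rcases Int.units_eq_one_or (Perm.sign τ) with h1 | h1
        · exact absurd h1 hτ
        · rcases Int.units_eq_one_or (Perm.sign σ) with h2 | h2 <;> rw [h2] at hR <;>
            rw [h1, h2] <;> by_cases h3 : R (b0 m) <;> by_cases h4 : T.R id <;>
            simp [h3, h4] at hR ⊢
    · -- the path: choose the model with the right orientation
      have h6 : ∃ m' : Fin 8, (m' = 6 ∨ m' = 7) ∧ (R (b0 m' ∘ σ) ↔ T.R id) := by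
        have e6 := R2 (b0 6) σ (b0_injective 6)
        have e7 := R2 (b0 7) σ (b0_injective 7)
        by_cases h : R (b0 6 ∘ σ) ↔ T.R id
        · exact ⟨6, Or.inl rfl, h⟩
        · refine ⟨7, Or.inr rfl, ?_⟩
          rw [e7]
          rw [e6] at h
          simp only [R6, R7, true_iff, false_iff] at h ⊢
          generalize (Perm.sign σ = 1) = a at h ⊢
          generalize T.R id = b at h ⊢
          clear e6 e7 hfull hmσ hmT hmat htri hirr hsym hinj hR
          by_cases ha : a <;> by_cases hb : b <;> simp [ha, hb] at h ⊢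
      obtain ⟨m', hm', hRm'⟩ := h6
      refine ⟨b0 m' ∘ σ, hinj m' σ, ?_, hRm', hfull m' σ⟩
      intro i j
      rw [← hmT i j]
      change E0 (b0 m' (σ i)) (b0 m' (σ j)) = true ↔ _
      rcases hm' with rfl | rfl <;> rcases h67 with rfl | rfl
      · exact Iff.rfl
      · rw [six_seven]
      · rw [six_seven]
      · exact Iff.rfl

end Pool.Agent.Lib.MP_0dd7b8_al
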