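import Pool.Agent.Lib.MP_0dd7b8_al.Basic

/-!
# The extension of a good pair by a stable letter is a good pair
-/

set_option autoImplicit false
set_option linter.unusedSectionVars false

namespace Pool.Agent.Lib.MP_0dd7b8_al

open Equiv

namespace Data

variable {G Ω : Type} [Group G] [MulAction G Ω] (D : Data G Ω)

/-- Conditions on the gluing data. -/
structure Nice (D : Data G Ω) (S : Str Ω) : Prop where
  good : Good G Ω S
  pf : ∀ (ε : Bool) (c : G) (x : Ω), c ∈ D.Cg ε → c ≠ 1 → c • x = x → x ∈ D.Dm ε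
  q1 : ∀ (δ ε : Bool) (g : G) (z : Fin 4 → Ω), Function.Injective z → (∀ i, z i ∈ D.Dm δ) →
      (∀ i, g • z i ∈ D.Dm ε) → ε = δ ∧ (ε = true → g ∈ D.Cg true)
  q2 : ∀ (ε : Bool) (x y : Ω), x ∈ D.Dm ε → y ∈ D.Dm ε →
      (S.E (D.th ε x) (D.th ε y) ↔ S.E x y)
  q3 : ∀ (ε : Bool) (x : Fin 4 → Ω), Function.Injective x → (∀ i, x i ∈ D.Dm ε) →
      (S.R (fun i => D.th ε (x i)) ↔ S.R x)
  q5 : ∃ x, x ∉ D.Dm true
  four : ∃ x : Fin 4 → Ω, Function.Injective x

/-- The base points. -/
def bs (x : Ω) : D.Pt := ⟨.base x, trivial⟩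

theorem bs_inj : Function.Injective D.bs := by
  intro x y h
  exact Stk.base.inj (congrArg Subtype.val h)

theorem P_bs (g : G) (x : Ω) : D.P g (D.bs x) = D.bs (g • x) := rfl

theorem t_bs {ε : Bool} {x : Ω} (h : x ∈ D.Dm ε) : D.t ε (D.bs x) = D.bs (D.th ε x) := by
  apply Subtype.ext
  exact D.tt_of_inDom (q := .base x) h

/-- Iterated words. -/
def pw (k : ℕ) (N : List (Bool × G)) : List (Bool × G) := (List.replicate k N).flatten

theorem pw_succ (k : ℕ) (N : List (Bool × G)) : pw (k + 1) N = N ++ pw k N := by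
  simp [pw, List.replicate_succ]

theorem pw_add (k l : ℕ) (N : List (Bool × G)) : pw (k + l) N = pw k N ++ pw l N := by
  rw [pw, List.replicate_add, List.flatten_append]
  rfl

theorem W_pw (k : ℕ) (N : List (Bool × G)) : D.W (pw k N) = D.W N ^ k := by
  induction k with
  | zero => simp [pw]
  | succ k ih => rw [pw_succ, W_append, ih, pow_succ']

theorem red_pw {N : List (Bool × G)} (hN : N ≠ []) (hr : D.Red (N ++ N)) (k : ℕ) :
    D.Red (pw (k + 1) N) := by
  have h := List.isChain_append.mp hr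
  induction k with
  | zero =>
    rw [pw_succ]
    have : pw 0 N = [] := rfl
    rw [this, List.append_nil]
    exact h.1
  | succ k ih =>
    rw [pw_succ]
    apply List.isChain_append.mpr
    refine ⟨h.1, ih, ?_⟩
    intro x hx y hy
    apply h.2.2 x hx y
    rw [pw_succ] at hy
    obtain ⟨a, N', rfl⟩ := List.exists_cons_of_ne_nil hN
    simpa using hy

theorem pw_ne_nil {N : List (Bool × G)} (hN : N ≠ []) (k : ℕ) : pw (k + 1) N ≠ [] := by
  rw [pw_succ]
  simp [hN]

theorem no_torsion (h5 : ∃ x, x ∉ D.Dm true) {N : List (Bool × G)} (hN : N ≠ [])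
    (hr : D.Red (N ++ N)) (k : ℕ) (h : D.W N ^ (k + 1) = 1) : False := by
  obtain ⟨x, hx⟩ := h5
  have hv : D.Valid (.push true 1 (.base x)) := ⟨D.rep_one true, hx, trivial⟩
  have h1 : D.Red (pw (k + 1) N ++ pw (k + 1) N) := by
    rw [← pw_add]
    exact D.red_pw hN hr (k + 1 + k)
  have h2 : D.run (pw (k + 1) N) (.push true 1 (.base x)) = .push true 1 (.base x) := by
    have h3 := D.W_apply (pw (k + 1) N) ⟨_, hv⟩
    rw [W_pw, h] at h3
    exact h3.symm
  obtain ⟨y, hy⟩ := (D.periodic (pw_ne_nil hN k) h1 h2).1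
  cases hy

theorem fix_W {N : List (Bool × G)} (hN : N ≠ []) (hr : D.Red (N ++ N)) {q : D.Pt}
    (h : D.W N q = q) : ∃ x, q = D.bs x ∧ D.Stay N x ∧ D.brun N x = x := by
  have h1 := D.W_apply N q
  rw [h] at h1
  obtain ⟨⟨x, hx⟩, h2⟩ := D.periodic hN hr h1.symm
  rw [hx] at h2 h1
  have h3 := D.noPush_base.mp h2
  refine ⟨x, Subtype.ext hx, h3, ?_⟩
  rw [D.run_base h3] at h1
  exact (Stk.base.inj h1).symm

variable {D} {S : Str Ω}

theorem Nice.fix_four (hD : D.Nice S) {N : List (Bool × G)} (hN : N ≠ []) (hr : D.Red (N ++ N))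
    (x : Fin 4 → D.Pt) (hx : Function.Injective x) (h : ∀ i, D.W N (x i) = x i) : False := by
  choose y h1 h2 h3 using fun i => D.fix_W hN hr (h i)
  have hy : Function.Injective y := by
    intro i j hij
    apply hx
    rw [h1, h1, hij]
  have hr3 : D.Red (pw 3 N) := D.red_pw hN hr 2
  have e3 : pw 3 N = N ++ (N ++ N) := by
    rw [pw_succ, pw_succ, pw_succ]
    simp [pw]
  rw [e3] at hr3
  have hlen : 0 < N.length := List.length_pos_iff.mpr hN
  refine D.four_stay hD.q1 hr3 ?_ y hy ?_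
  · simp
    omega
  · intro i
    apply D.stay_append
    · apply D.stay_append (h2 i)
      rw [h3 i]
      exact h2 i
    · rw [D.brun_append, h3 i, h3 i]
      exact h2 i

theorem Nice.P_inj (hD : D.Nice S) {g : G} (h : D.P g = 1) : g = 1 := by
  obtain ⟨x, hx⟩ := hD.four
  apply hD.good.sharp g x hx
  funext i
  have h1 : D.P g (D.bs (x i)) = D.bs (x i) := by rw [h]; rfl
  rw [P_bs] at h1
  exact D.bs_inj h1

theorem Nice.fix_P (hD : D.Nice S) {g : G} (hg : g ≠ 1) {q : D.Pt} (h : D.P g q = q) :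
    ∃ x, q = D.bs x ∧ g • x = x := by
  obtain ⟨x, h1, h2⟩ := D.fix_act hD.pf hg q.2 (congrArg Subtype.val h)
  exact ⟨x, Subtype.ext h1, h2⟩

theorem Nice.classify (_hD : D.Nice S) {f : Perm D.Pt} (hf : f ∈ D.Ext) :
    (∃ (u : Perm D.Pt) (g : G), f = u * D.P g * u⁻¹) ∨
    (∃ (u : Perm D.Pt) (N : List (Bool × G)), N ≠ [] ∧ D.Red (N ++ N) ∧
      f = u * D.W N * u⁻¹) := by
  obtain ⟨g, L, hL, rfl⟩ := D.form hf
  exact D.classify L g hL

theorem inv_app {α : Type} (u : Perm α) (x : α) : u⁻¹ (u x) = x := u.symm_apply_apply x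

theorem conj_fix {α : Type} {u p : Perm α} {x : α} (h : (u * p * u⁻¹) x = x) :
    p (u⁻¹ x) = u⁻¹ x := by
  have : u (p (u⁻¹ x)) = x := h
  rw [Perm.eq_inv_iff_eq]
  exact this

theorem Nice.sharp (hD : D.Nice S) {f : Perm D.Pt} (hf : f ∈ D.Ext) (x : Fin 4 → D.Pt)
    (hx : Function.Injective x) (h : ∀ i, f (x i) = x i) : f = 1 := by
  rcases hD.classify hf with ⟨u, g, rfl⟩ | ⟨u, N, hN, hr, rfl⟩
  · by_cases hg : g = 1
    · rw [hg, map_one]
      group
    · exfalso
      choose y h1 h2 using fun i => hD.fix_P hg (conj_fix (h i))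
      apply hg
      apply hD.good.sharp g y
      · intro i j hij
        apply hx
        apply (u⁻¹).injective
        rw [h1, h1, hij]
      · funext i
        exact h2 i
  · exfalso
    apply hD.fix_four hN hr (fun i => u⁻¹ (x i)) ((u⁻¹).injective.comp hx)
    intro i
    exact conj_fix (h i)

theorem conj_pow_one {α : Type} {u p : Perm α} {k : ℕ} (h : (u * p * u⁻¹) ^ k = 1) :
    p ^ k = 1 := by
  rw [conj_pow] at h
  have h2 : p ^ k = u⁻¹ * (u * p ^ k * u⁻¹) * u := by group
  rw [h2, h]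
  group

theorem Nice.torsion (hD : D.Nice S) {f : Perm D.Pt} (hf : f ∈ D.Ext) (k : ℕ)
    (h : f ^ (k + 1) = 1) :
    ∃ (u : Perm D.Pt) (g : G), f = u * D.P g * u⁻¹ ∧ g ^ (k + 1) = 1 := by
  rcases hD.classify hf with ⟨u, g, rfl⟩ | ⟨u, N, hN, hr, rfl⟩
  · refine ⟨u, g, rfl, ?_⟩
    have h1 := conj_pow_one h
    rw [← map_pow] at h1
    exact hD.P_inj h1
  · exfalso
    exact D.no_torsion hD.q5 hN hr k (conj_pow_one h)

theorem Nice.invol (hD : D.Nice S) {f : Perm D.Pt} (hf : f ∈ D.Ext) (x : D.Pt) (h1 : f ≠ 1)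
    (h2 : f ^ 2 = 1) : f x ≠ x := by
  intro hx
  obtain ⟨u, g, rfl, hg⟩ := hD.torsion hf 1 h2
  have hg1 : g ≠ 1 := by
    rintro rfl
    apply h1
    rw [map_one]
    group
  obtain ⟨y, -, hy⟩ := hD.fix_P hg1 (conj_fix hx)
  exact hD.good.invol g y hg1 hg hy

theorem Nice.three (hD : D.Nice S) {f : Perm D.Pt} (hf : f ∈ D.Ext) (x y : D.Pt) (h1 : f ≠ 1)
    (h3 : f ^ 3 = 1) (hx : f x = x) (hy : f y = y) : x = y := by
  obtain ⟨u, g, rfl, hg⟩ := hD.torsion hf 2 h3
  have hg1 : g ≠ 1 := by
    rintro rfl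
    apply h1
    rw [map_one]
    group
  obtain ⟨x', hx1, hx2⟩ := hD.fix_P hg1 (conj_fix hx)
  obtain ⟨y', hy1, hy2⟩ := hD.fix_P hg1 (conj_fix hy)
  apply (u⁻¹).injective
  rw [hx1, hy1, hD.good.three g x' y' hg1 hg hx2 hy2]

theorem Nice.noFour (hD : D.Nice S) {f : Perm D.Pt} (hf : f ∈ D.Ext) (h4 : f ^ 4 = 1) :
    f ^ 2 = 1 := by
  obtain ⟨u, g, rfl, hg⟩ := hD.torsion hf 3 h4
  rw [conj_pow, ← map_pow, hD.good.noFour g hg, map_one]
  group

/-! ### The path lemma -/

theorem path {L : List (Bool × G)} (hL : D.Red L) {g : G} {x y : Ω}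
    (h : (D.P g * D.W L) (D.bs x) = D.bs y) : D.Stay L x ∧ g • D.brun L x = y := by
  have h1 : D.act g (D.run L (.base x)) = .base y := by
    have := congrArg Subtype.val h
    have h3 := D.W_apply L (D.bs x)
    change D.act g (D.W L (D.bs x)).1 = _ at this
    rw [h3] at this
    exact this
  have h2 : D.run L (.base x) = .base (g⁻¹ • y) := by
    have h3 : D.act g⁻¹ (D.act g (D.run L (.base x))) = D.run L (.base x) := by
      rw [← D.act_mul, inv_mul_cancel, D.act_one _ (D.valid_run L (q := .base x) trivial)]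
    rw [← h3, h1]
    rfl
  obtain ⟨h3, h4⟩ := D.stay_of_run hL h2
  refine ⟨h3, ?_⟩
  rw [h4, smul_inv_smul]

theorem Nice.E_brun (hD : D.Nice S) {L : List (Bool × G)} {x y : Ω} (hx : D.Stay L x)
    (hy : D.Stay L y) : S.E (D.brun L x) (D.brun L y) ↔ S.E x y := by
  induction L with
  | nil => exact Iff.rfl
  | cons a L ih =>
    obtain ⟨ε, g⟩ := a
    rw [← ih hx.1 hy.1, ← hD.good.mapE g (D.brun L x) (D.brun L y), ← hD.q2 ε _ _ hx.2 hy.2]
    rfl

theorem Nice.R_brun (hD : D.Nice S) {L : List (Bool × G)} {x : Fin 4 → Ω}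
    (hx : Function.Injective x) (h : ∀ i, D.Stay L (x i)) :
    S.R (fun i => D.brun L (x i)) ↔ S.R x := by
  induction L with
  | nil => exact Iff.rfl
  | cons a L ih =>
    obtain ⟨ε, g⟩ := a
    have hi : Function.Injective (fun i => g • D.brun L (x i)) := by
      intro i j hij
      exact hx (D.brun_inj (h i).1 (h j).1 (MulAction.injective g hij))
    rw [← ih (fun i => (h i).1), ← hD.good.mapR g (fun i => D.brun L (x i))]
    exact hD.q3 ε _ hi (fun i => (h i).2)

/-! ### The graph -/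

variable (D S) in
/-- The graph on the tree of copies. -/
def E' (x y : D.Pt) : Prop :=
  ∃ f ∈ D.Ext, ∃ x0 y0, x = f (D.bs x0) ∧ y = f (D.bs y0) ∧ S.E x0 y0

theorem E'_smul {f : Perm D.Pt} (hf : f ∈ D.Ext) {x y : D.Pt} (h : D.E' S x y) :
    D.E' S (f x) (f y) := by
  obtain ⟨f', hf', x0, y0, rfl, rfl, h⟩ := h
  exact ⟨f * f', mul_mem hf hf', x0, y0, rfl, rfl, h⟩

theorem Nice.E'_base (hD : D.Nice S) {x y : Ω} : D.E' S (D.bs x) (D.bs y) ↔ S.E x y := by
  constructor
  · rintro ⟨f, hf, x0, y0, hx, hy, h⟩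
    obtain ⟨g, L, hL, rfl⟩ := D.form hf
    obtain ⟨hx1, hx2⟩ := path hL hx.symm
    obtain ⟨hy1, hy2⟩ := path hL hy.symm
    rw [← hx2, ← hy2, hD.good.mapE, hD.E_brun hx1 hy1]
    exact h
  · intro h
    exact ⟨1, one_mem _, x, y, rfl, rfl, h⟩

/-- A base point joined to a higher point lies in the gluing set. -/
theorem E'_push {x : Ω} {q : D.Pt} {ε : Bool} {h : G} {r : Stk G Ω}
    (hq : q.1 = .push ε h r) (hE : D.E' S (D.bs x) q) : h⁻¹ • x ∈ D.Dm (!ε) := by
  obtain ⟨f, hf, x0, y0, hx, hy, -⟩ := hE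
  obtain ⟨g, L, hL, rfl⟩ := D.form hf
  obtain ⟨hx1, hx2⟩ := path hL hx.symm
  have hy1 : D.act g (D.run L (.base y0)) = .push ε h r := by
    rw [← hq, hy]
    change _ = D.act g (D.W L (D.bs y0)).1
    rw [D.W_apply]
    rfl
  rcases D.noPush_or_up L (.base y0) hL with h1 | h1
  · rw [D.run_base (D.noPush_base.mp h1)] at hy1
    cases hy1
  · obtain ⟨ε', g', L', r', rfl, h2⟩ := h1
    rw [h2, act_push] at hy1
    injection hy1 with h3 h4 _
    subst h3
    have h5 := D.rep_mem ε' (g * 1)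
    rw [h4, mul_one] at h5
    have h6 : D.brun ((ε', g') :: L') x0 ∈ D.Dm (!ε') := D.th_mem _ _ hx1.2
    have h7 := D.Dm_inv _ _ _ h5 h6
    rw [← hx2, ← mul_smul]
    exact h7

theorem Nice.tri_aux (hD : D.Nice S) (n : ℕ) : ∀ (q : D.Pt) (x y : Ω), sz q.1 = n → S.E x y →
    D.E' S (D.bs x) q → D.E' S (D.bs y) q → False := by
  induction n with
  | zero =>
    intro q x y hn hxy hx hy
    obtain ⟨z, hz⟩ := eq_base_of_sz hn
    have hq : q = D.bs z := Subtype.ext hz
    rw [hq, hD.E'_base] at hx hy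
    exact S.E_tri x y z hxy hy hx
  | succ n ih =>
    intro q x y hn hxy hx hy
    obtain ⟨q, hq⟩ := q
    match q, hq, hn, hx, hy with
    | .push ε h r, hq, hn, hx, hy =>
      have h1 := E'_push rfl hx
      have h2 := E'_push rfl hy
      have hF : D.t (!ε) * D.P h⁻¹ ∈ D.Ext := mul_mem (D.t_mem _) (D.P_mem _)
      have hx' := E'_smul hF hx
      have hy' := E'_smul hF hy
      rw [Perm.mul_apply, Perm.mul_apply, P_bs, D.t_bs h1] at hx'
      rw [Perm.mul_apply, Perm.mul_apply, P_bs, D.t_bs h2] at hy'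
      refine ih _ _ _ ?_ ?_ hx' hy'
      · rw [D.t_apply, D.P_apply, act_push]
        have h3 : D.rep ε (h⁻¹ * h) = 1 := by rw [inv_mul_cancel, D.rep_one]
        have h4 : D.InDom (!ε) (.push ε (D.rep ε (h⁻¹ * h))
            (D.act (D.φ (!ε) ((D.rep ε (h⁻¹ * h))⁻¹ * (h⁻¹ * h))) r)) := by
          rw [inDom_push, h3]
          simp
        rw [D.tt_of_inDom h4, D.sz_down, sz_push, D.sz_act]
        simpa using hn
      · rw [hD.q2 _ _ _ h1 h2, hD.good.mapE]
        exact hxy

theorem Nice.E'_tri (hD : D.Nice S) (x y z : D.Pt) (h1 : D.E' S x y) (h2 : D.E' S y z)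
    (h3 : D.E' S x z) : False := by
  obtain ⟨f, hf, x0, y0, rfl, rfl, h⟩ := h1
  have h2' := E'_smul (inv_mem hf) h2
  have h3' := E'_smul (inv_mem hf) h3
  rw [inv_app] at h2' h3'
  exact hD.tri_aux _ (f⁻¹ z) x0 y0 rfl h h3' h2'

/-- The main construction. -/
theorem Nice.extend (hD : D.Nice S) : ∃ S' : Str D.Pt, Good D.Ext D.Pt S' ∧
    (∀ x y, S'.E (D.bs x) (D.bs y) ↔ S.E x y) ∧
    (∀ x : Fin 4 → Ω, S'.R (fun i => D.bs (x i)) ↔ S.R x) := by
  have sharp : ∀ (g : D.Ext) (x : Fin 4 → D.Pt), Function.Injective x → g • x = x → g = 1 := by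
    intro g x hx h
    apply Subtype.ext
    exact hD.sharp g.2 x hx (fun i => congrFun h i)
  have invol : ∀ (g : D.Ext) (x : D.Pt), g ≠ 1 → g ^ 2 = 1 → g • x ≠ x := by
    intro g x h1 h2
    apply hD.invol g.2 x
    · intro h
      exact h1 (Subtype.ext h)
    · exact congrArg Subtype.val h2
  have three : ∀ (g : D.Ext) (x y : D.Pt), g ≠ 1 → g ^ 3 = 1 → g • x = x → g • y = y → x = y := by
    intro g x y h1 h2 h3 h4
    apply hD.three g.2 x y
    · intro h
      exact h1 (Subtype.ext h)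
    · exact congrArg Subtype.val h2
    · exact h3
    · exact h4
  have noFour : ∀ g : D.Ext, g ^ 4 = 1 → g ^ 2 = 1 := by
    intro g h
    apply Subtype.ext
    exact hD.noFour g.2 (congrArg Subtype.val h)
  obtain ⟨R, R1, R2, R3, R4⟩ := exists_orientation (Γ := D.Ext) (Z := D.Pt)
    {x | ∃ y : Fin 4 → Ω, Function.Injective y ∧ x = fun i => D.bs (y i)}
    (fun x => ∃ y : Fin 4 → Ω, x = (fun i => D.bs (y i)) ∧ S.R y)
    (by
      rintro x ⟨y, hy, rfl⟩
      exact D.bs_inj.comp hy)
    (by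
      rintro x ⟨x0, hx0, rfl⟩ y ⟨y0, hy0, rfl⟩ f σ h
      have hR : ∀ z : Fin 4 → Ω, (∃ y : Fin 4 → Ω, (fun i => D.bs (z i)) = (fun i => D.bs (y i)) ∧
          S.R y) ↔ S.R z := by
        intro z
        constructor
        · rintro ⟨y, h1, h2⟩
          have : z = y := funext fun i => D.bs_inj (congrFun h1 i)
          rwa [this]
        · intro h
          exact ⟨z, rfl, h⟩
      rw [hR, hR]
      obtain ⟨g, L, hL, hf⟩ := D.form f.2
      have h1 : ∀ i, (D.P g * D.W L) (D.bs (x0 i)) = D.bs (y0 (σ⁻¹ i)) := by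
        intro i
        have h2 := congrFun h (σ⁻¹ i)
        have h3 : σ (σ⁻¹ i) = i := by simp
        simp only [Function.comp_apply, h3] at h2
        rw [h2, ← hf]
        rfl
      have h2 : ∀ i, D.Stay L (x0 i) := fun i => (path hL (h1 i)).1
      have h3 : y0 ∘ (σ⁻¹ : Perm (Fin 4)) = g • fun i => D.brun L (x0 i) := by
        funext i
        exact (path hL (h1 i)).2.symm
      have h4 := S.R_alt y0 σ⁻¹ hy0
      rw [h3, hD.good.mapR, hD.R_brun hx0 h2, Perm.sign_inv] at h4
      tauto)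
    (fun x g σ hx h => even_of_stab sharp invol noFour hx h)
  refine ⟨{ E := D.E' S, R := R, E_symm := ?_, E_irrefl := ?_, E_tri := hD.E'_tri,
            R_inj := R1, R_alt := R2 }, ⟨?_, R3, sharp, invol, three, noFour⟩, ?_, ?_⟩
  · rintro x y ⟨f, hf, x0, y0, rfl, rfl, h⟩
    exact ⟨f, hf, y0, x0, rfl, rfl, S.E_symm _ _ h⟩
  · rintro x ⟨f, hf, x0, y0, hx, hy, h⟩
    have : x0 = y0 := D.bs_inj (f.injective (hx.symm.trans hy))
    rw [this] at h
    exact S.E_irrefl _ h
  · intro g x y
    constructor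
    · intro h
      have := E'_smul (inv_mem g.2) h
      change D.E' S (g.1⁻¹ (g.1 x)) (g.1⁻¹ (g.1 y)) at this
      rwa [inv_app, inv_app] at this
    · exact E'_smul g.2
  · intro x y
    exact hD.E'_base
  · intro x
    by_cases hx : Function.Injective x
    · refine (R4 _ ⟨x, hx, rfl⟩).trans ?_
      constructor
      · rintro ⟨y, h1, h2⟩
        have : x = y := funext fun i => D.bs_inj (congrFun h1 i)
        rwa [this]
      · intro h
        exact ⟨x, rfl, h⟩
    · constructor
      · intro h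
        exact absurd (fun i j hij => R1 _ h (congrArg D.bs hij)) hx
      · intro h
        exact absurd (S.R_inj x h) hx

end Data

end Pool.Agent.Lib.MP_0dd7b8_al

/-!
# Good pairs, embeddings, and the step realising an isomorphism of 4-tuples
-/

set_option autoImplicit false
set_option linter.unusedSectionVars false

namespace Pool.Agent.Lib.MP_0dd7b8_al

open Equiv

/-- A good pair. -/
structure Pair where
  Ω : Type
  G : Type
  [grp : Group G]
  [act : MulAction G Ω]
  S : Str Ω
  good : Good G Ω S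
  cnt : Countable Ω
  four : ∃ x : Fin 4 → Ω, Function.Injective x

attribute [instance] Pair.grp Pair.act Pair.cnt

/-- An embedding of good pairs. -/
structure Hom (P Q : Pair) where
  f : P.Ω → Q.Ω
  ρ : P.G →* Q.G
  inj : Function.Injective f
  E : ∀ x y, Q.S.E (f x) (f y) ↔ P.S.E x y
  R : ∀ x : Fin 4 → P.Ω, Q.S.R (f ∘ x) ↔ P.S.R x
  equi : ∀ (g : P.G) (x : P.Ω), f (g • x) = ρ g • f x

namespace Hom

/-- The identity. -/
def id (P : Pair) : Hom P P where
  f := _root_.id
  ρ := MonoidHom.id _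
  inj := Function.injective_id
  E _ _ := Iff.rfl
  R _ := Iff.rfl
  equi _ _ := rfl

/-- Composition. -/
def comp {P Q T : Pair} (h' : Hom Q T) (h : Hom P Q) : Hom P T where
  f := h'.f ∘ h.f
  ρ := h'.ρ.comp h.ρ
  inj := h'.inj.comp h.inj
  E x y := (h'.E _ _).trans (h.E x y)
  R x := (h'.R (h.f ∘ x)).trans (h.R x)
  equi g x := by
    change h'.f (h.f (g • x)) = _
    rw [h.equi, h'.equi]
    rfl

end Hom

theorem Pair.countable_G (P : Pair) : Countable P.G := by
  obtain ⟨x, hx⟩ := P.four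
  have : Function.Injective (fun g : P.G => g • x) := by
    intro g h hgh
    have h1 : (h⁻¹ * g) • x = x := by
      rw [mul_smul]
      simp only at hgh
      rw [hgh, inv_smul_smul]
    have h2 := P.good.sharp _ x hx h1
    rw [inv_mul_eq_one] at h2
    exact h2.symm
  exact this.countable

theorem Stk.countable {G Ω : Type} [Countable G] [Countable Ω] : Countable (Stk G Ω) := by
  let enc : Stk G Ω → List (Bool × G) × Ω := fun q =>
    Stk.rec (motive := fun _ => List (Bool × G) × Ω) (fun x => ([], x))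
      (fun ε h _ r => ((ε, h) :: r.1, r.2)) q
  have henc : Function.Injective enc := by
    intro q
    induction q with
    | base x =>
      intro r h
      cases r with
      | base y =>
        have : x = y := congrArg Prod.snd h
        rw [this]
      | push ε h' r =>
        have := congrArg Prod.fst h
        simp [enc] at this
    | push ε h' q ih =>
      intro r h
      cases r with
      | base y =>
        have := congrArg Prod.fst h
        simp [enc] at this
      | push ε' h'' r =>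
        have h1 := congrArg Prod.fst h
        have h2 := congrArg Prod.snd h
        simp only [enc, List.cons.injEq, Prod.mk.injEq] at h1 h2
        obtain ⟨⟨rfl, rfl⟩, h3⟩ := h1
        rw [ih (Prod.ext h3 h2)]
  exact henc.countable

theorem exists_rep {G : Type} [Group G] (H : Subgroup G) :
    ∃ r : G → G, (∀ g, (r g)⁻¹ * g ∈ H) ∧ (∀ g c, c ∈ H → r (g * c) = r g) ∧ r 1 = 1 := by
  classical
  let o : G → G := fun g => (QuotientGroup.mk g : G ⧸ H).out
  have ho : ∀ g, (o g)⁻¹ * g ∈ H := by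
    intro g
    rw [← QuotientGroup.eq]
    exact QuotientGroup.out_eq' _
  have hc : ∀ g c, c ∈ H → o (g * c) = o g := by
    intro g c hc
    have : (QuotientGroup.mk (g * c) : G ⧸ H) = QuotientGroup.mk g := QuotientGroup.mk_mul_of_mem g hc
    simp only [o, this]
  refine ⟨fun g => if g ∈ H then 1 else o g, ?_, ?_, ?_⟩
  · intro g
    by_cases h : g ∈ H
    · simpa [h] using h
    · simpa [h] using ho g
  · intro g c hcH
    by_cases h : g ∈ H
    · have : g * c ∈ H := mul_mem h hcH
      simp [h, this]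
    · have : g * c ∉ H := by
        intro h'
        exact h ((Subgroup.mul_mem_cancel_right H hcH).mp h')
      simp [h, this, hc g c hcH]
  · simp

section step

variable {G Ω : Type} [Group G] [MulAction G Ω]

/-- Every even automorphism of the graph on the tuple is realised. -/
def Full (G : Type) {Ω : Type} [Group G] [MulAction G Ω] (S : Str Ω) (b : Fin 4 → Ω) : Prop :=
  ∀ π : Perm (Fin 4), Perm.sign π = 1 → (∀ i j, S.E (b (π i)) (b (π j)) ↔ S.E (b i) (b j)) →
    ∃ g : G, g • b = b ∘ π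

/-- Matching partial symmetries of two tuples. -/
def Rel (a b : Fin 4 → Ω) (c d : G) : Prop :=
  ∃ π : Perm (Fin 4), c • a = a ∘ π ∧ d • b = b ∘ π

/-- The two tuples. -/
def tup (a b : Fin 4 → Ω) : Bool → Fin 4 → Ω
  | true => a
  | false => b

theorem perm_eq_of_comp {a : Fin 4 → Ω} (ha : Function.Injective a) {π π' : Perm (Fin 4)}
    (h : a ∘ π = a ∘ π') : π = π' := by
  ext i
  exact congrArg _ (ha (congrFun h i))

theorem Rel.symm {a b : Fin 4 → Ω} {c d : G} (h : Rel a b c d) : Rel b a d c := by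
  obtain ⟨π, h1, h2⟩ := h
  exact ⟨π, h2, h1⟩

theorem Rel.mul {a b : Fin 4 → Ω} {c d c' d' : G} (h : Rel a b c d) (h' : Rel a b c' d') :
    Rel a b (c * c') (d * d') := by
  obtain ⟨π, h1, h2⟩ := h
  obtain ⟨π', h3, h4⟩ := h'
  refine ⟨π * π', ?_, ?_⟩
  · rw [mul_smul, h3, smul_comp, h1]
    rfl
  · rw [mul_smul, h4, smul_comp, h2]
    rfl

theorem inv_smul_tuple {a : Fin 4 → Ω} {c : G} {π : Perm (Fin 4)} (h : c • a = a ∘ π) :
    c⁻¹ • a = a ∘ (π⁻¹ : Perm (Fin 4)) := by
  rw [inv_smul_eq_iff, smul_comp, h]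
  funext i
  have : π (π⁻¹ i) = i := π.apply_symm_apply i
  simp [Function.comp, this]

theorem Rel.inv {a b : Fin 4 → Ω} {c d : G} (h : Rel a b c d) : Rel a b c⁻¹ d⁻¹ := by
  obtain ⟨π, h1, h2⟩ := h
  exact ⟨π⁻¹, inv_smul_tuple h1, inv_smul_tuple h2⟩

theorem Rel.one (a b : Fin 4 → Ω) : Rel a b (1 : G) 1 := ⟨1, by simp, by simp⟩

theorem Rel.unique {S : Str Ω} (hG : Good G Ω S) {a b : Fin 4 → Ω} (ha : Function.Injective a)
    (hb : Function.Injective b) {c d d' : G} (h : Rel a b c d) (h' : Rel a b c d') : d = d' := by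
  obtain ⟨π, h1, h2⟩ := h
  obtain ⟨π', h3, h4⟩ := h'
  have : π = π' := perm_eq_of_comp ha (h1.symm.trans h3)
  subst this
  have h5 : (d'⁻¹ * d) • b = b := by
    rw [mul_smul, h2, ← h4, inv_smul_smul]
  have h6 := hG.sharp _ b hb h5
  rw [inv_mul_eq_one] at h6
  exact h6.symm

theorem comp_perm_of_range {a z : Fin 4 → Ω} (ha : Function.Injective a)
    (hz : Function.Injective z) (h : ∀ i, z i ∈ Set.range a) :
    ∃ π : Perm (Fin 4), z = a ∘ π := by
  choose p hp using h
  have hinj : Function.Injective p := by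
    intro i j hij
    apply hz
    rw [← hp i, ← hp j, hij]
  refine ⟨Equiv.ofBijective p (Finite.injective_iff_bijective.mp hinj), ?_⟩
  funext i
  exact (hp i).symm

/-- The subgroup of elements of `G` having a partner. -/
def cg (a b : Fin 4 → Ω) : Subgroup G where
  carrier := {c | ∃ d, Rel a b c d}
  mul_mem' := by
    rintro c c' ⟨d, h⟩ ⟨d', h'⟩
    exact ⟨_, h.mul h'⟩
  one_mem' := ⟨1, Rel.one a b⟩
  inv_mem' := by
    rintro c ⟨d, h⟩
    exact ⟨_, h.inv⟩

open Classical in
/-- The partner. -/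
noncomputable def partner (a b : Fin 4 → Ω) (c : G) : G :=
  if h : ∃ d, Rel a b c d then h.choose else 1

theorem partner_spec {a b : Fin 4 → Ω} {c : G} (h : c ∈ cg a b) : Rel a b c (partner a b c) := by
  have h' : ∃ d, Rel a b c d := h
  rw [partner, dif_pos h']
  exact h'.choose_spec

open Classical in
/-- The gluing map. -/
noncomputable def glue (a b : Fin 4 → Ω) (x : Ω) : Ω :=
  if h : ∃ i, a i = x then b h.choose else x

theorem glue_apply {a b : Fin 4 → Ω} (ha : Function.Injective a) (i : Fin 4) :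
    glue a b (a i) = b i := by
  have h : ∃ j, a j = a i := ⟨i, rfl⟩
  rw [glue, dif_pos h, ha h.choose_spec]

theorem tup_inj {a b : Fin 4 → Ω} (ha : Function.Injective a) (hb : Function.Injective b)
    (ε : Bool) : Function.Injective (tup a b ε) := by
  cases ε
  · exact hb
  · exact ha

theorem tup_E {S : Str Ω} {a b : Fin 4 → Ω} (hE : ∀ i j, S.E (a i) (a j) ↔ S.E (b i) (b j))
    (ε : Bool) (i j : Fin 4) :
    S.E (tup a b (!ε) i) (tup a b (!ε) j) ↔ S.E (tup a b ε i) (tup a b ε j) := by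
  cases ε
  · exact hE i j
  · exact (hE i j).symm

theorem tup_R {S : Str Ω} {a b : Fin 4 → Ω} (hR : S.R a ↔ S.R b)
    (ε : Bool) : S.R (tup a b (!ε)) ↔ S.R (tup a b ε) := by
  cases ε
  · exact hR
  · exact hR.symm

/-- The gluing data of two tuples. -/
noncomputable def mkData {S : Str Ω} (hG : Good G Ω S) (a b : Fin 4 → Ω)
    (ha : Function.Injective a) (hb : Function.Injective b) : Data G Ω where
  Cg ε := cg (tup a b ε) (tup a b (!ε))
  φ ε := partner (tup a b ε) (tup a b (!ε))
  Dm ε := Set.range (tup a b ε)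
  th ε := glue (tup a b ε) (tup a b (!ε))
  rep ε := (exists_rep (cg (G := G) (tup a b (!ε)) (tup a b (!(!ε))))).choose
  φ_mem ε c hc := by
    refine ⟨c, ?_⟩
    rw [Bool.not_not]
    exact (partner_spec hc).symm
  φ_mul ε c d hc hd := by
    apply Rel.unique hG (tup_inj ha hb ε) (tup_inj ha hb (!ε)) (partner_spec (mul_mem hc hd))
    exact (partner_spec hc).mul (partner_spec hd)
  φ_inv ε c hc := by
    have h1 : Rel (tup a b (!ε)) (tup a b (!(!ε))) (partner (tup a b ε) (tup a b (!ε)) c) c := by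
      rw [Bool.not_not]
      exact (partner_spec hc).symm
    exact Rel.unique hG (tup_inj ha hb (!ε)) (tup_inj ha hb _) (partner_spec ⟨c, h1⟩) h1
  th_mem ε x hx := by
    obtain ⟨i, rfl⟩ := hx
    rw [glue_apply (tup_inj ha hb ε)]
    exact ⟨i, rfl⟩
  th_inv ε x hx := by
    obtain ⟨i, rfl⟩ := hx
    rw [glue_apply (tup_inj ha hb ε), glue_apply (tup_inj ha hb (!ε)), Bool.not_not]
  Dm_inv ε c x hc hx := by
    obtain ⟨i, rfl⟩ := hx
    obtain ⟨π, h1, -⟩ := partner_spec hc
    exact ⟨π i, (congrFun h1 i).symm⟩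
  th_smul ε c x hc hx := by
    obtain ⟨i, rfl⟩ := hx
    obtain ⟨π, h1, h2⟩ := partner_spec hc
    have h3 : c • tup a b ε i = tup a b ε (π i) := congrFun h1 i
    rw [h3, glue_apply (tup_inj ha hb ε), glue_apply (tup_inj ha hb ε)]
    exact (congrFun h2 i).symm
  rep_mem ε := (exists_rep (cg (G := G) (tup a b (!ε)) (tup a b (!(!ε))))).choose_spec.1
  rep_mul ε := (exists_rep (cg (G := G) (tup a b (!ε)) (tup a b (!(!ε))))).choose_spec.2.1
  rep_one ε := (exists_rep (cg (G := G) (tup a b (!ε)) (tup a b (!(!ε))))).choose_spec.2.2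

theorem even_stab {S : Str Ω} (hG : Good G Ω S) {a : Fin 4 → Ω} (ha : Function.Injective a)
    {c : G} {π : Perm (Fin 4)} (h : c • a = a ∘ π) : Perm.sign π = 1 :=
  even_of_stab hG.sharp hG.invol hG.noFour ha h

theorem mkData_nice {S : Str Ω} (hG : Good G Ω S) {a b : Fin 4 → Ω}
    (ha : Function.Injective a) (hb : Function.Injective b)
    (hE : ∀ i j, S.E (a i) (a j) ↔ S.E (b i) (b j)) (hR : S.R a ↔ S.R b)
    (full : Full G S b) (nc : ∀ (g : G) (π : Perm (Fin 4)), g • a ≠ b ∘ π) :
    (mkData hG a b ha hb).Nice S where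
  good := hG
  four := ⟨a, ha⟩
  q5 := by
    by_contra h
    push Not at h
    obtain ⟨π, hπ⟩ := comp_perm_of_range ha hb (fun i => h (b i))
    apply nc 1 π⁻¹
    rw [one_smul, hπ]
    funext i
    have : π (π⁻¹ i) = i := π.apply_symm_apply i
    simp [Function.comp, this]
  pf := by
    intro ε c x hc h1 hx
    obtain ⟨d, π, h2, -⟩ := hc
    have hev := even_stab hG (tup_inj ha hb ε) h2
    have hπ : π ≠ 1 := by
      rintro rfl
      exact h1 (hG.sharp c _ (tup_inj ha hb ε) h2)
    have hpow : ∀ n, π ^ n = 1 → c ^ n = 1 := by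
      intro n hn
      apply hG.sharp _ _ (tup_inj ha hb ε)
      rw [pow_smul_tuple h2, hn]
      rfl
    rcases even_perm_cases π hev hπ with h3 | ⟨h3, i, hi⟩
    · exact absurd hx (hG.invol c x h1 (hpow 2 h3))
    · have h4 : c • tup a b ε i = tup a b ε i := by
        have := congrFun h2 i
        simp only [Pi.smul_apply, Function.comp_apply, hi] at this
        exact this
      have := hG.three c x _ h1 (hpow 3 h3) hx h4
      exact ⟨i, this.symm⟩
  q1 := by
    intro δ ε g z hz h1 h2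
    obtain ⟨π, hπ⟩ := comp_perm_of_range (tup_inj ha hb δ) hz h1
    obtain ⟨π', hπ'⟩ := comp_perm_of_range (tup_inj ha hb ε)
      (z := g • z) ((MulAction.injective g).comp hz) h2
    have h3 : g • tup a b δ = tup a b ε ∘ (π' * π⁻¹ : Perm (Fin 4)) := by
      have h4 : tup a b δ = z ∘ (π⁻¹ : Perm (Fin 4)) := by
        rw [hπ]
        funext i
        have : π (π⁻¹ i) = i := π.apply_symm_apply i
        simp [Function.comp, this]
      rw [h4, smul_comp, hπ']
      rfl
    have heq : ε = δ := by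
      cases ε <;> cases δ
      · rfl
      · exact absurd h3 (nc g _)
      · exfalso
        have h4 : g⁻¹ • a = b ∘ ((π' * π⁻¹)⁻¹ : Perm (Fin 4)) := by
          have h3' : g • b = a ∘ (π' * π⁻¹ : Perm (Fin 4)) := h3
          rw [inv_smul_eq_iff, smul_comp, h3']
          funext i
          have : (π' * π⁻¹) ((π' * π⁻¹)⁻¹ i) = i := (π' * π⁻¹).apply_symm_apply i
          rw [Function.comp_apply, Function.comp_apply, this]
        exact nc _ _ h4
      · rfl
    refine ⟨heq, ?_⟩
    rintro rfl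
    subst heq
    have h3' : g • a = a ∘ (π' * π⁻¹ : Perm (Fin 4)) := h3
    have hev := even_stab hG ha h3'
    obtain ⟨d, hd⟩ := full (π' * π⁻¹) hev (by
      intro i j
      rw [← hE, ← hE, ← hG.mapE g (a i) (a j)]
      have e1 := congrFun h3' i
      have e2 := congrFun h3' j
      simp only [Pi.smul_apply, Function.comp_apply] at e1 e2
      rw [e1, e2])
    exact ⟨d, _, h3', hd⟩
  q2 := by
    rintro ε x y ⟨i, rfl⟩ ⟨j, rfl⟩
    change S.E (glue _ _ _) (glue _ _ _) ↔ _
    rw [glue_apply (tup_inj ha hb ε), glue_apply (tup_inj ha hb ε)]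
    exact tup_E hE ε i j
  q3 := by
    intro ε x hx h
    obtain ⟨π, rfl⟩ := comp_perm_of_range (tup_inj ha hb ε) hx h
    have : (fun i => (mkData hG a b ha hb).th ε ((tup a b ε ∘ π) i)) = tup a b (!ε) ∘ π := by
      funext i
      change glue _ _ (tup a b ε (π i)) = _
      rw [glue_apply (tup_inj ha hb ε)]
      rfl
    rw [this, S.R_alt _ _ (tup_inj ha hb ε), S.R_alt _ _ (tup_inj ha hb (!ε)), tup_R hR ε]

end step

/-- Realising an isomorphism of 4-tuples, when the target has full stabiliser. -/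
theorem std (P : Pair) (a b : Fin 4 → P.Ω) (ha : Function.Injective a) (hb : Function.Injective b)
    (hE : ∀ i j, P.S.E (a i) (a j) ↔ P.S.E (b i) (b j)) (hR : P.S.R a ↔ P.S.R b)
    (full : Full P.G P.S b) :
    ∃ (Q : Pair) (h : Hom P Q) (g : Q.G), g • (h.f ∘ a) = h.f ∘ b := by
  by_cases nc : ∀ (g : P.G) (π : Perm (Fin 4)), g • a ≠ b ∘ π
  · have hD := mkData_nice P.good ha hb hE hR full nc
    obtain ⟨S', h1, h2, h3⟩ := hD.extend
    have := P.countable_G
    have : Countable (mkData P.good a b ha hb).Pt := by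
      have := Stk.countable (G := P.G) (Ω := P.Ω)
      exact Subtype.countable
    let Q : Pair := {
      Ω := (mkData P.good a b ha hb).Pt
      G := (mkData P.good a b ha hb).Ext
      S := S'
      good := h1
      cnt := this
      four := ⟨fun i => (mkData P.good a b ha hb).bs (a i),
        (mkData P.good a b ha hb).bs_inj.comp ha⟩ }
    let h : Hom P Q := {
      f := (mkData P.good a b ha hb).bs
      ρ := (mkData P.good a b ha hb).P.codRestrict _ (mkData P.good a b ha hb).P_mem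
      inj := (mkData P.good a b ha hb).bs_inj
      E := h2
      R := h3
      equi := fun g x => rfl }
    refine ⟨Q, h, ⟨(mkData P.good a b ha hb).t true, (mkData P.good a b ha hb).t_mem true⟩, ?_⟩
    funext i
    have h4 : a i ∈ (mkData P.good a b ha hb).Dm true := ⟨i, rfl⟩
    have h5 := (mkData P.good a b ha hb).t_bs h4
    have h6 : (mkData P.good a b ha hb).th true (a i) = b i :=
      glue_apply (a := tup a b true) (b := tup a b false) ha i
    rw [h6] at h5
    exact h5
  · push Not at nc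
    obtain ⟨g, π, h⟩ := nc
    have hEπ : ∀ i j, P.S.E (b (π i)) (b (π j)) ↔ P.S.E (b i) (b j) := by
      intro i j
      rw [← hE i j, ← P.good.mapE g (a i) (a j)]
      have e1 := congrFun h i
      have e2 := congrFun h j
      simp only [Pi.smul_apply, Function.comp_apply] at e1 e2
      rw [e1, e2]
    have hsgn : Perm.sign π = 1 := by
      have h1 := P.S.R_alt b π hb
      rw [← h, P.good.mapR, hR] at h1
      tauto
    obtain ⟨k, hk⟩ := full π hsgn hEπ
    refine ⟨P, Hom.id P, k⁻¹ * g, ?_⟩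
    change (k⁻¹ * g) • a = b
    rw [mul_smul, h, ← hk, inv_smul_smul]

end Pool.Agent.Lib.MP_0dd7b8_al

/-!
# Adding a free orbit realising a one-point extension
-/

set_option autoImplicit false
set_option linter.unusedSectionVars false

namespace Pool.Agent.Lib.MP_0dd7b8_al

open Equiv

section

variable {G Ω : Type} [Group G] [MulAction G Ω] (S : Str Ω) {k : ℕ} (F : Fin k → Ω)
  (T : Str (Option (Fin k)))

/-- The graph. -/
def foE : Ω ⊕ G → Ω ⊕ G → Prop
  | .inl x, .inl y => S.E x y
  | .inl x, .inr h => ∃ i, T.E none (some i) ∧ x = h • F i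
  | .inr h, .inl x => ∃ i, T.E none (some i) ∧ x = h • F i
  | .inr _, .inr _ => False

/-- The embedding of the extension. -/
def fo (G : Type) {Ω : Type} [Group G] {k : ℕ} (F : Fin k → Ω) (o : Option (Fin k)) : Ω ⊕ G :=
  o.elim (.inr 1) (fun i => .inl (F i))

theorem fo_inj (hF : Function.Injective F) : Function.Injective (fo G F) := by
  intro o o' h
  cases o <;> cases o' <;> simp [fo] at h ⊢
  exact hF h

variable {S F T}

theorem foE_smul (hG : Good G Ω S) (g : G) (x y : Ω ⊕ G) :
    foE S F T (g • x) (g • y) ↔ foE S F T x y := by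
  have key : ∀ (x : Ω) (h : G), (∃ i, T.E none (some i) ∧ g • x = (g • h) • F i) ↔
      ∃ i, T.E none (some i) ∧ x = h • F i := by
    intro x h
    apply exists_congr
    intro i
    apply and_congr_right
    intro _
    rw [smul_eq_mul, mul_smul]
    exact (MulAction.injective g).eq_iff
  cases x with
  | inl x =>
    cases y with
    | inl y => exact hG.mapE g x y
    | inr h => exact key x h
  | inr h =>
    cases y with
    | inl y => exact key y h
    | inr h' => exact Iff.rfl

theorem foE_symm (x y : Ω ⊕ G) (h : foE S F T x y) : foE S F T y x := by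
  cases x <;> cases y
  · exact S.E_symm _ _ h
  · exact h
  · exact h
  · exact h

theorem foE_tri (hG : Good G Ω S) (hE : ∀ i j, T.E (some i) (some j) ↔ S.E (F i) (F j))
    (x y z : Ω ⊕ G) (h1 : foE S F T x y) (h2 : foE S F T y z) (h3 : foE S F T x z) : False := by
  have key : ∀ (x y : Ω) (h : G), S.E x y → (∃ i, T.E none (some i) ∧ x = h • F i) →
      (∃ i, T.E none (some i) ∧ y = h • F i) → False := by
    rintro x y h hxy ⟨i, hi, rfl⟩ ⟨j, hj, rfl⟩
    rw [hG.mapE, ← hE] at hxy
    exact T.E_tri none _ _ hi hxy hj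
  cases x with
  | inl x =>
    cases y with
    | inl y =>
      cases z with
      | inl z => exact S.E_tri x y z h1 h2 h3
      | inr z => exact key x y z h1 h3 h2
    | inr y =>
      cases z with
      | inl z => exact key x z y h3 h1 h2
      | inr z => exact h2
  | inr x =>
    cases y with
    | inl y =>
      cases z with
      | inl z => exact key y z x h2 h1 h3
      | inr z => exact h3
    | inr y => exact h1

theorem sum_sharp (hG : Good G Ω S) (g : G) (x : Fin 4 → Ω ⊕ G) (hx : Function.Injective x)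
    (h : g • x = x) : g = 1 := by
  by_cases hr : ∃ i h', x i = .inr h'
  · obtain ⟨i, h', hi⟩ := hr
    have h1 := congrFun h i
    rw [Pi.smul_apply, hi] at h1
    have h2 : g * h' = h' := Sum.inr.inj h1
    simpa using h2
  · have : ∀ i, ∃ y, x i = .inl y := by
      intro i
      rcases hxi : x i with y | h'
      · exact ⟨y, rfl⟩
      · exact absurd ⟨i, h', hxi⟩ hr
    choose y hy using this
    apply hG.sharp g y
    · intro i j hij
      apply hx
      rw [hy, hy, hij]
    · funext i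
      have h1 := congrFun h i
      rw [Pi.smul_apply, hy] at h1
      exact Sum.inl.inj h1

theorem sum_fix {g : G} (hg : g ≠ 1) {x : Ω ⊕ G} (h : g • x = x) : ∃ y, x = .inl y ∧ g • y = y := by
  cases x with
  | inl y => exact ⟨y, rfl, Sum.inl.inj h⟩
  | inr h' =>
    exfalso
    have h2 : g * h' = h' := Sum.inr.inj h
    apply hg
    simpa using h2

theorem free_orbit (hG : Good G Ω S) (hF : Function.Injective F)
    (hE : ∀ i j, T.E (some i) (some j) ↔ S.E (F i) (F j))
    (hR : ∀ z : Fin 4 → Fin k, T.R (some ∘ z) ↔ S.R (F ∘ z)) :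
    ∃ S' : Str (Ω ⊕ G), Good G (Ω ⊕ G) S' ∧ (∀ x y, S'.E (.inl x) (.inl y) ↔ S.E x y) ∧
      (∀ x : Fin 4 → Ω, S'.R (Sum.inl ∘ x) ↔ S.R x) ∧
      (∀ i, S'.E (.inr 1) (.inl (F i)) ↔ T.E none (some i)) ∧
      (∀ z : Fin 4 → Option (Fin k), S'.R (fo G F ∘ z) ↔ T.R z) := by
  have sharp := fun g x => sum_sharp (S := S) hG g x
  have invol : ∀ (g : G) (x : Ω ⊕ G), g ≠ 1 → g ^ 2 = 1 → g • x ≠ x := by
    intro g x h1 h2 h3
    obtain ⟨y, -, hy⟩ := sum_fix h1 h3
    exact hG.invol g y h1 h2 hy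
  have three : ∀ (g : G) (x y : Ω ⊕ G), g ≠ 1 → g ^ 3 = 1 → g • x = x → g • y = y → x = y := by
    intro g x y h1 h2 h3 h4
    obtain ⟨x', rfl, hx⟩ := sum_fix h1 h3
    obtain ⟨y', rfl, hy⟩ := sum_fix h1 h4
    rw [hG.three g x' y' h1 h2 hx hy]
  have finj := fo_inj (G := G) F hF
  have hR1 : ∀ y : Fin 4 → Ω, ((∃ y' : Fin 4 → Ω, (Sum.inl ∘ y : Fin 4 → Ω ⊕ G) = Sum.inl ∘ y' ∧ S.R y') ∨
      (∃ z : Fin 4 → Option (Fin k), (Sum.inl ∘ y : Fin 4 → Ω ⊕ G) = fo G F ∘ z ∧ (∃ j, z j = none) ∧ T.R z)) ↔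
      S.R y := by
    intro y
    constructor
    · rintro (⟨y', h1, h2⟩ | ⟨z, h1, ⟨j, hj⟩, -⟩)
      · have : y = y' := by
          funext i
          exact Sum.inl.inj (congrFun h1 i)
        rwa [this]
      · have := congrFun h1 j
        simp [hj, fo] at this
    · intro h
      exact Or.inl ⟨y, rfl, h⟩
  have hR2 : ∀ z : Fin 4 → Option (Fin k), (∃ j, z j = none) →
      (((∃ y' : Fin 4 → Ω, fo G F ∘ z = Sum.inl ∘ y' ∧ S.R y') ∨
      (∃ z' : Fin 4 → Option (Fin k), fo G F ∘ z = fo G F ∘ z' ∧ (∃ j, z' j = none) ∧ T.R z')) ↔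
      T.R z) := by
    intro z hz
    constructor
    · rintro (⟨y', h1, -⟩ | ⟨z', h1, -, h2⟩)
      · obtain ⟨j, hj⟩ := hz
        have := congrFun h1 j
        simp [hj, fo] at this
      · have : z = z' := by
          funext i
          exact finj (congrFun h1 i)
        rwa [this]
    · intro h
      exact Or.inr ⟨z, rfl, hz, h⟩
  obtain ⟨R, R1, R2, R3, R4⟩ := exists_orientation (Γ := G) (Z := Ω ⊕ G)
    {x | (∃ y : Fin 4 → Ω, Function.Injective y ∧ x = Sum.inl ∘ y) ∨
      (∃ z : Fin 4 → Option (Fin k), Function.Injective z ∧ (∃ j, z j = none) ∧ x = fo G F ∘ z)}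
    (fun x => (∃ y : Fin 4 → Ω, x = Sum.inl ∘ y ∧ S.R y) ∨
      (∃ z : Fin 4 → Option (Fin k), x = fo G F ∘ z ∧ (∃ j, z j = none) ∧ T.R z))
    (by
      rintro x (⟨y, hy, rfl⟩ | ⟨z, hz, -, rfl⟩)
      · exact Sum.inl_injective.comp hy
      · exact finj.comp hz)
    (by
      rintro x (⟨y, hy, rfl⟩ | ⟨z, hz, hzn, rfl⟩) x' (⟨y', hy', rfl⟩ | ⟨z', hz', hzn', rfl⟩) g σ h
      · simp only [hR1]
        have h1 : y' = (g • y) ∘ σ := by
          funext i
          exact Sum.inl.inj (congrFun h i)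
        have h2 := S.R_alt (g • y) σ ((MulAction.injective g).comp hy)
        rw [← h1, hG.mapR] at h2
        exact h2
      · exfalso
        obtain ⟨j, hj⟩ := hzn'
        have := congrFun h j
        simp [hj, fo] at this
      · exfalso
        obtain ⟨j, hj⟩ := hzn
        have := congrFun h (σ⁻¹ j)
        have h3 : σ (σ⁻¹ j) = j := σ.apply_symm_apply j
        simp only [Function.comp_apply, h3, Pi.smul_apply, hj, fo, Option.elim] at this
        cases this
      · obtain ⟨j, hj⟩ := hzn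
        have hg : g = 1 := by
          have h1 := congrFun h (σ⁻¹ j)
          have h3 : σ (σ⁻¹ j) = j := σ.apply_symm_apply j
          simp only [Function.comp_apply, h3, Pi.smul_apply, hj, fo, Option.elim] at h1
          rcases hz'j : z' (σ⁻¹ j) with _ | i
          · rw [hz'j] at h1
            have h2 : (1 : G) = g * 1 := Sum.inr.inj h1
            rw [mul_one] at h2
            exact h2.symm
          · rw [hz'j] at h1
            cases h1
        subst hg
        rw [one_smul] at h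
        have h1 : z' = z ∘ σ := by
          funext i
          exact finj (congrFun h i)
        rw [hR2 z ⟨j, hj⟩, hR2 z' hzn', h1]
        exact T.R_alt z σ hz)
    (fun x g σ hx h => even_of_stab sharp invol hG.noFour hx h)
  refine ⟨{ E := foE S F T, R := R, E_symm := foE_symm, E_irrefl := ?_, E_tri := foE_tri hG hE,
            R_inj := R1, R_alt := R2 }, ⟨foE_smul hG, R3, sharp, invol, three, hG.noFour⟩,
            ?_, ?_, ?_, ?_⟩
  · intro x h
    cases x with
    | inl x => exact S.E_irrefl _ h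
    | inr x => exact h
  · intro x y
    exact Iff.rfl
  · intro x
    by_cases hx : Function.Injective x
    · exact (R4 _ (Or.inl ⟨x, hx, rfl⟩)).trans (hR1 x)
    · constructor
      · intro h
        exact absurd (fun i j hij => R1 _ h (congrArg Sum.inl hij)) hx
      · intro h
        exact absurd (S.R_inj x h) hx
  · intro i
    change (∃ j, T.E none (some j) ∧ F i = (1 : G) • F j) ↔ _
    constructor
    · rintro ⟨j, h1, h2⟩
      rw [one_smul] at h2
      rwa [hF h2]
    · intro h
      exact ⟨i, h, (one_smul _ _).symm⟩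
  · intro z
    by_cases hz : Function.Injective z
    · by_cases hn : ∃ j, z j = none
      · exact (R4 _ (Or.inr ⟨z, hz, hn, rfl⟩)).trans (hR2 z hn)
      · have : ∀ j, ∃ i, z j = some i := by
          intro j
          rcases hj : z j with _ | i
          · exact absurd ⟨j, hj⟩ hn
          · exact ⟨i, rfl⟩
        choose w hw using this
        have hzw : z = some ∘ w := funext hw
        have hfw : (fo G F ∘ z) = Sum.inl ∘ (F ∘ w) := by
          rw [hzw]
          rfl
        have hwi : Function.Injective (F ∘ w) := by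
          apply hF.comp
          intro i j hij
          apply hz
          rw [hw, hw, hij]
        change R (fo G F ∘ z) ↔ _
        rw [hfw]
        refine (R4 _ (Or.inl ⟨F ∘ w, hwi, rfl⟩)).trans ((hR1 _).trans ?_)
        rw [← hR, ← hzw]
    · constructor
      · intro h
        exact absurd (fun i j hij => R1 _ h (congrArg (fo G F) hij)) hz
      · intro h
        exact absurd (T.R_inj z h) hz

end

/-- Realising a one-point extension. -/
theorem ext_step (P : Pair) {k : ℕ} (F : Fin k → P.Ω) (hF : Function.Injective F)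
    (T : Str (Option (Fin k)))
    (hE : ∀ i j, T.E (some i) (some j) ↔ P.S.E (F i) (F j))
    (hR : ∀ z : Fin 4 → Fin k, T.R (some ∘ z) ↔ P.S.R (F ∘ z)) :
    ∃ (Q : Pair) (h : Hom P Q) (p : Q.Ω), (∀ i, p ≠ h.f (F i)) ∧
      (∀ i, Q.S.E p (h.f (F i)) ↔ T.E none (some i)) ∧
      (∀ z : Fin 4 → Option (Fin k), Q.S.R (fun j => (z j).elim p (fun i => h.f (F i))) ↔ T.R z) := by
  obtain ⟨S', h1, h2, h3, h4, h5⟩ := free_orbit P.good hF hE hR
  have := P.countable_G
  let Q : Pair := {
    Ω := P.Ω ⊕ P.G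
    G := P.G
    S := S'
    good := h1
    cnt := inferInstance
    four := by
      obtain ⟨x, hx⟩ := P.four
      exact ⟨Sum.inl ∘ x, Sum.inl_injective.comp hx⟩ }
  let h : Hom P Q := {
    f := Sum.inl
    ρ := MonoidHom.id _
    inj := Sum.inl_injective
    E := h2
    R := h3
    equi := fun g x => rfl }
  refine ⟨Q, h, Sum.inr 1, ?_, h4, h5⟩
  intro i hi
  cases hi

end Pool.Agent.Lib.MP_0dd7b8_al

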